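import Pool.Agent.NSN83.Defs

/-!
# Non-existence of viscosity solutions with noise: the proofs
-/

set_option autoImplicit false

namespace Pool.Agent.NSN83

open Set Filter Topology

/-- A function that is smooth on an open set agrees near each of its points with a globally smooth
function. -/
theorem exists_global {F : Type*} [NormedAddCommGroup F] [NormedSpace ℝ F] [FiniteDimensional ℝ F]
    {U : Set F} (hU : IsOpen U) {f : F → ℝ} (hf : ContDiffOn ℝ ((⊤ : ℕ∞) : WithTop ℕ∞) f U)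
    {q : F} (hq : q ∈ U) :
    ∃ φ : F → ℝ, ContDiff ℝ ((⊤ : ℕ∞) : WithTop ℕ∞) φ ∧ φ =ᶠ[𝓝 q] f := by
  obtain ⟨r, hr, hrU⟩ := Metric.isOpen_iff.1 hU q hq
  let ψ : ContDiffBump q := ⟨r / 4, r / 2, by positivity, by linarith⟩
  refine ⟨fun y => ψ y * f y, ?_, ?_⟩
  · rw [contDiff_iff_contDiffAt]
    intro y
    by_cases hy : y ∈ U
    · exact ψ.contDiff.contDiffAt.mul (hf.contDiffAt (hU.mem_nhds hy))
    · have h0 : (fun y => ψ y * f y) =ᶠ[𝓝 y] fun _ => 0 := by
        have hy2 : y ∉ tsupport ψ := by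
          rw [ψ.tsupport_eq]
          intro h
          apply hy
          apply hrU
          rw [Metric.mem_closedBall] at h
          rw [Metric.mem_ball]
          have : ψ.rOut = r / 2 := rfl
          linarith
        have h1 := notMem_tsupport_iff_eventuallyEq.1 hy2
        filter_upwards [h1] with z hz
        rw [hz]
        simp
      exact contDiffAt_const.congr_of_eventuallyEq h0
  · filter_upwards [ψ.eventuallyEq_one] with y hy
    rw [hy]
    simp

section

variable {n d : ℕ}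

theorem dt_congr {φ ψ : ℝ × E n → ℝ} {q : ℝ × E n} (h : φ =ᶠ[𝓝 q] ψ) : dt φ q = dt ψ q := by
  unfold dt
  apply Filter.EventuallyEq.deriv_eq
  have hc : Tendsto (fun s : ℝ => ((s, q.2) : ℝ × E n)) (𝓝 q.1) (𝓝 q) := by
    have : Continuous (fun s : ℝ => ((s, q.2) : ℝ × E n)) := by fun_prop
    exact this.tendsto' _ _ rfl
  exact hc.eventually h

theorem slice_congr {φ ψ : ℝ × E n → ℝ} {q : ℝ × E n} (h : φ =ᶠ[𝓝 q] ψ) :
    (fun x => φ (q.1, x)) =ᶠ[𝓝 q.2] (fun x => ψ (q.1, x)) := by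
  have hc : Tendsto (fun x : E n => ((q.1, x) : ℝ × E n)) (𝓝 q.2) (𝓝 q) := by
    have : Continuous (fun x : E n => ((q.1, x) : ℝ × E n)) := by fun_prop
    exact this.tendsto' _ _ rfl
  exact hc.eventually h

theorem gradX_congr {φ ψ : ℝ × E n → ℝ} {q : ℝ × E n}
    (h : (fun x => φ (q.1, x)) =ᶠ[𝓝 q.2] (fun x => ψ (q.1, x))) : gradX φ q = gradX ψ q := by
  unfold gradX gradient
  rw [h.fderiv_eq]

theorem hessX_congr {φ ψ : ℝ × E n → ℝ} {q : ℝ × E n}
    (h : (fun x => φ (q.1, x)) =ᶠ[𝓝 q.2] (fun x => ψ (q.1, x))) : hessX φ q = hessX ψ q := by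
  unfold hessX
  ext i j
  rw [Matrix.of_apply, Matrix.of_apply, (h.iteratedFDeriv ℝ 2).eq_of_nhds]

theorem L_congr (D : EqData n d) {φ ψ : ℝ × E n → ℝ} {q : ℝ × E n}
    (h : (fun x => φ (q.1, x)) =ᶠ[𝓝 q.2] (fun x => ψ (q.1, x))) : D.L φ q = D.L ψ q := by
  unfold EqData.L
  rw [gradX_congr h, hessX_congr h]

end

theorem G_of_nonneg {y : ℝ} (hy : 0 ≤ y) : G y = 2 * min (√y) 1 := by
  rw [G, Real.sqrt_eq_zero_of_nonpos (show -y ≤ 0 by linarith), min_eq_left (zero_le_one),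
    sub_zero]

theorem G_neg (y : ℝ) : G (-y) = -G y := by
  rw [G, G, neg_neg]
  ring

theorem abs_G_le (y : ℝ) : |G y| ≤ 2 := by
  rcases le_total 0 y with h | h
  · rw [G_of_nonneg h, abs_of_nonneg (by positivity)]
    linarith [min_le_right (√y) 1]
  · have h1 : G y = -(2 * min (√(-y)) 1) := by
      rw [← G_of_nonneg (show 0 ≤ -y by linarith), G_neg, neg_neg]
    rw [h1, abs_neg, abs_of_nonneg (by positivity)]
    linarith [min_le_right (√(-y)) 1]

theorem continuous_G : Continuous G := by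
  unfold G
  fun_prop

theorem G_mono : Monotone G := by
  intro x y h
  unfold G
  have h1 : min (√x) 1 ≤ min (√y) 1 := min_le_min_right _ (Real.sqrt_le_sqrt h)
  have h2 : min (√(-y)) 1 ≤ min (√(-x)) 1 := min_le_min_right _ (Real.sqrt_le_sqrt (by linarith))
  linarith

/-- **The first contact lemma.** A supersolution `v` lies above a smooth subsolution `w` on a
compact set `Q` of positions if it does so at the terminal time and on the lateral boundary. -/
theorem contact {n d : ℕ} (D : EqData n d) (hg : ∀ t x y z, D.g t x y z = G y) {c T : ℝ}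
    {Q O : Set (E n)} (hQ : IsCompact Q) (hO : IsOpen O) (hOQ : O ⊆ Q)
    {v w : ℝ × E n → ℝ} (hv : ContinuousOn v (Icc c T ×ˢ Q)) (hw : ContinuousOn w (Icc c T ×ˢ Q))
    (hT : ∀ x ∈ Q, w (T, x) < v (T, x))
    (hlat : ∀ t ∈ Ioc c T, ∀ x ∈ Q, x ∉ O → w (t, x) < v (t, x))
    (hsup : ∀ φ : ℝ × E n → ℝ, ContDiff ℝ ((⊤ : ℕ∞) : WithTop ℕ∞) φ → ∀ q : ℝ × E n,
      q.1 ∈ Ioo c T → q.2 ∈ O → IsLocalMin (fun r => v r - φ r) q → D.F (v q) φ q ≤ 0)
    (hws : ContDiffOn ℝ ((⊤ : ℕ∞) : WithTop ℕ∞) w (Ioo c T ×ˢ O))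
    (hsub : ∀ q : ℝ × E n, q.1 ∈ Ioo c T → q.2 ∈ O → 0 ≤ D.F (w q) w q) :
    ∀ t ∈ Ioc c T, ∀ x ∈ Q, w (t, x) < v (t, x) := by
  by_contra hcon
  push Not at hcon
  obtain ⟨t0, ht0, x0, hx0, hcon⟩ := hcon
  have hβ : ContinuousOn (fun q => v q - w q) (Icc c T ×ˢ Q) := hv.sub hw
  -- the last contact time
  have hSc : IsCompact ((Icc t0 T ×ˢ Q) ∩ {q | v q - w q ≤ 0}) := by
    have h1 : IsCompact (Icc t0 T ×ˢ Q) := isCompact_Icc.prod hQ
    have h2 : ContinuousOn (fun q => v q - w q) (Icc t0 T ×ˢ Q) :=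
      hβ.mono (prod_mono (Icc_subset_Icc_left ht0.1.le) (le_refl _))
    have h3 := h2.preimage_isClosed_of_isClosed h1.isClosed isClosed_Iic (t := Iic (0:ℝ))
    exact h1.of_isClosed_subset h3 inter_subset_left
  obtain ⟨q1, hq1, hmax⟩ := hSc.exists_isMaxOn ⟨(t0, x0), ⟨⟨⟨le_refl _, ht0.2⟩, hx0⟩, by
    show v (t0, x0) - w (t0, x0) ≤ 0
    linarith⟩⟩ continuous_fst.continuousOn
  obtain ⟨ts, hts⟩ : ∃ ts, ts = q1.1 := ⟨_, rfl⟩
  have hq1Q : q1.2 ∈ Q := hq1.1.2
  have hq1v : v q1 - w q1 ≤ 0 := hq1.2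
  have hts0 : c < ts := by rw [hts]; exact lt_of_lt_of_le ht0.1 hq1.1.1.1
  have htsT : ts < T := by
    rcases lt_or_eq_of_le (show ts ≤ T by rw [hts]; exact hq1.1.1.2) with h | h
    · exact h
    · exfalso
      have h1 := hT q1.2 hq1Q
      have h2 : q1 = (T, q1.2) := by rw [← h, hts]
      rw [h2] at hq1v
      linarith
  have hafter : ∀ t ∈ Ioc ts T, ∀ x ∈ Q, w (t, x) < v (t, x) := by
    intro t ht x hx
    by_contra hneg
    push Not at hneg
    have h1 := hmax (show ((t, x) : ℝ × E n) ∈ (Icc t0 T ×ˢ Q) ∩ {q | v q - w q ≤ 0} from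
      ⟨⟨⟨by
        have : t0 ≤ ts := by rw [hts]; exact hq1.1.1.1
        linarith [ht.1], ht.2⟩, hx⟩, by
        show v (t, x) - w (t, x) ≤ 0
        linarith⟩)
    have h2 : t ≤ q1.1 := h1
    rw [← hts] at h2
    linarith [ht.1]
  -- a positive lower bound on the parabolic boundary
  have hΓc : IsCompact ((Icc ts T ×ˢ (Q \ O)) ∪ ({T} ×ˢ Q)) :=
    (isCompact_Icc.prod (hQ.diff hO)).union (isCompact_singleton.prod hQ)
  have hΓsub : ((Icc ts T ×ˢ (Q \ O)) ∪ ({T} ×ˢ Q)) ⊆ Icc c T ×ˢ Q := by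
    rintro ⟨t, x⟩ (⟨h1, h2⟩ | ⟨h1, h2⟩)
    · exact ⟨⟨by linarith [h1.1], h1.2⟩, h2.1⟩
    · simp only [mem_singleton_iff] at h1
      exact ⟨⟨by rw [h1]; linarith, by rw [h1]⟩, h2⟩
  obtain ⟨q0, hq0, hmin0⟩ := hΓc.exists_isMinOn ⟨(T, q1.2), Or.inr ⟨rfl, hq1Q⟩⟩ (hβ.mono hΓsub)
  obtain ⟨c0, hc0⟩ : ∃ c0, c0 = v q0 - w q0 := ⟨_, rfl⟩
  have hc0pos : 0 < c0 := by
    rw [hc0]
    rcases hq0 with h | h
    · have := hlat q0.1 ⟨by linarith [h.1.1], h.1.2⟩ q0.2 h.2.1 h.2.2
      simp only [Prod.mk.eta] at this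
      linarith
    · have h1 := hT q0.2 h.2
      have h2 : q0 = (T, q0.2) := by
        have := h.1
        simp only [mem_singleton_iff] at this
        rw [← this]
      rw [h2]
      linarith
  have hΓ : ∀ q ∈ ((Icc ts T ×ˢ (Q \ O)) ∪ ({T} ×ˢ Q)), c0 ≤ v q - w q := by
    intro q hq
    rw [hc0]
    exact hmin0 hq
  -- a time `t2` slightly later than `ts` at which the gap is small
  obtain ⟨t2, ht2a, ht2b, ht2⟩ : ∃ t2, ts < t2 ∧ t2 < T ∧ v (t2, q1.2) - w (t2, q1.2) < c0 / 2 := by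
    have h1 : ContinuousOn (fun t : ℝ => v (t, q1.2) - w (t, q1.2)) (Icc ts T) := by
      have h2 : ContinuousOn (fun t : ℝ => ((t, q1.2) : ℝ × E n)) (Icc ts T) := by fun_prop
      exact hβ.comp h2 (fun t ht => ⟨⟨by linarith [ht.1], ht.2⟩, hq1Q⟩)
    have h2 : Tendsto (fun t : ℝ => v (t, q1.2) - w (t, q1.2)) (𝓝[>] ts)
        (𝓝 (v (ts, q1.2) - w (ts, q1.2))) := by
      have h3 := h1 ts ⟨le_refl _, htsT.le⟩
      refine h3.mono_left ?_
      rw [← nhdsWithin_Ioo_eq_nhdsGT htsT]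
      exact nhdsWithin_mono _ Ioo_subset_Icc_self
    have h3 : v (ts, q1.2) - w (ts, q1.2) < c0 / 2 := by
      have h4 : ((ts, q1.2) : ℝ × E n) = q1 := by rw [hts]
      rw [h4]
      linarith
    have h4 := h2.eventually (gt_mem_nhds h3)
    have h5 : ∀ᶠ t in 𝓝[>] ts, t ∈ Ioo ts T := Ioo_mem_nhdsGT htsT
    obtain ⟨t, ht, ht'⟩ := (h4.and h5).exists
    exact ⟨t, ht'.1, ht'.2, ht⟩
  obtain ⟨ρ, hρ⟩ : ∃ ρ, ρ = (t2 - ts) * c0 / 4 := ⟨_, rfl⟩
  have hs0 : 0 < t2 - ts := by linarith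
  have hρ0 : 0 < ρ := by rw [hρ]; positivity
  obtain ⟨t3, ht3⟩ : ∃ t3, t3 = ts + (t2 - ts) / 4 := ⟨_, rfl⟩
  -- the penalised difference
  have hKc : IsCompact (Icc t3 T ×ˢ Q) := isCompact_Icc.prod hQ
  have hKsub : Icc t3 T ×ˢ Q ⊆ Icc c T ×ˢ Q :=
    prod_mono (Icc_subset_Icc_left (by linarith)) (le_refl _)
  have hΦc : ContinuousOn (fun q : ℝ × E n => v q - w q + ρ / (q.1 - ts)) (Icc t3 T ×ˢ Q) := by
    refine (hβ.mono hKsub).add ?_
    refine continuousOn_const.div (by fun_prop) ?_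
    intro q hq
    have := hq.1.1
    have h1 : 0 < q.1 - ts := by linarith
    exact h1.ne'
  obtain ⟨qs, hqs, hqsmin⟩ := hKc.exists_isMinOn ⟨(t2, q1.2), ⟨⟨by linarith, ht2b.le⟩, hq1Q⟩⟩ hΦc
  have hval : v qs - w qs + ρ / (qs.1 - ts) < c0 := by
    have h1 : v qs - w qs + ρ / (qs.1 - ts) ≤ v (t2, q1.2) - w (t2, q1.2) + ρ / (t2 - ts) :=
      hqsmin (show ((t2, q1.2) : ℝ × E n) ∈ Icc t3 T ×ˢ Q from ⟨⟨by linarith, ht2b.le⟩, hq1Q⟩)
    have h2 : ρ / (t2 - ts) = c0 / 4 := by
      rw [hρ]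
      field_simp
    linarith
  have hqs1 : 0 < qs.1 - ts := by linarith [hqs.1.1]
  have hqsw : w qs < v qs := by
    have := hafter qs.1 ⟨by linarith, hqs.1.2⟩ qs.2 hqs.2
    simpa using this
  have hpen : 0 < ρ / (qs.1 - ts) := by positivity
  have hqsO : qs.2 ∈ O := by
    by_contra h
    have := hΓ qs (Or.inl ⟨⟨by linarith, hqs.1.2⟩, ⟨hqs.2, h⟩⟩)
    linarith
  have hqsT : qs.1 < T := by
    rcases lt_or_eq_of_le hqs.1.2 with h | h
    · exact h
    · exfalso
      have := hΓ qs (Or.inr ⟨h, hqs.2⟩)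
      linarith
  have hqst3 : t3 < qs.1 := by
    rcases lt_or_eq_of_le hqs.1.1 with h | h
    · exact h
    · exfalso
      have h1 : qs.1 - ts = (t2 - ts) / 4 := by linarith
      have h2 : ρ / (qs.1 - ts) = c0 := by
        rw [h1, hρ]
        field_simp
      linarith
  -- the test function
  let ψ : ℝ × E n → ℝ := fun q => w q - ρ / (q.1 - ts)
  have hψs : ContDiffOn ℝ ((⊤ : ℕ∞) : WithTop ℕ∞) ψ (Ioo ts T ×ˢ O) := by
    refine (hws.mono (prod_mono (Ioo_subset_Ioo_left hts0.le) (le_refl _))).sub ?_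
    refine contDiffOn_const.div (by fun_prop) ?_
    intro q hq
    have := hq.1.1
    have h1 : 0 < q.1 - ts := by linarith
    exact h1.ne'
  have hopen : IsOpen (Ioo ts T ×ˢ O) := isOpen_Ioo.prod hO
  have hqsmem : qs ∈ Ioo ts T ×ˢ O := ⟨⟨by linarith, hqsT⟩, hqsO⟩
  obtain ⟨φ, hφ, hφeq⟩ := exists_global hopen hψs hqsmem
  have hloc : IsLocalMin (fun r => v r - φ r) qs := by
    have h1 : IsLocalMin (fun q : ℝ × E n => v q - w q + ρ / (q.1 - ts)) qs := by
      apply hqsmin.isLocalMin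
      exact mem_of_superset ((isOpen_Ioo.prod hO).mem_nhds (show qs ∈ Ioo t3 T ×ˢ O from
        ⟨⟨hqst3, hqsT⟩, hqsO⟩)) (prod_mono Ioo_subset_Icc_self hOQ)
    refine h1.congr ?_
    filter_upwards [hφeq] with q hq
    rw [hq]
    show v q - w q + ρ / (q.1 - ts) = v q - (w q - ρ / (q.1 - ts))
    ring
  have hkey := hsup φ hφ qs ⟨by linarith, hqsT⟩ hqsO hloc
  have hkey2 := hsub qs ⟨by linarith, hqsT⟩ hqsO
  -- compare the two
  have hsl : (fun x => ψ (qs.1, x)) = fun x => w (qs.1, x) - ρ / (qs.1 - ts) := rfl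
  have hL : D.L φ qs = D.L w qs := by
    rw [L_congr D (slice_congr hφeq)]
    unfold EqData.L gradX hessX
    rw [hsl]
    congr 2
    · unfold gradient
      rw [fderiv_sub_const]
    · congr 1
      congr 1
      ext i j
      rw [Matrix.of_apply, Matrix.of_apply]
      rw [iteratedFDeriv_two_apply, iteratedFDeriv_two_apply]
      have : fderiv ℝ (fun x => w (qs.1, x) - ρ / (qs.1 - ts)) = fderiv ℝ (fun x => w (qs.1, x)) := by
        ext1 x
        rw [fderiv_sub_const]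
      rw [this]
  have hdt : dt φ qs = dt w qs + ρ / (qs.1 - ts) ^ 2 := by
    rw [dt_congr hφeq]
    unfold dt
    have hwd : DifferentiableAt ℝ (fun s => w (s, qs.2)) qs.1 := by
      have h1 : DifferentiableAt ℝ w (qs.1, qs.2) := by
        have h2 : ContDiffAt ℝ ((⊤ : ℕ∞) : WithTop ℕ∞) w qs :=
          hws.contDiffAt ((isOpen_Ioo.prod hO).mem_nhds ⟨⟨by linarith, hqsT⟩, hqsO⟩)
        exact h2.differentiableAt (by simp)
      have h3 : DifferentiableAt ℝ (fun s : ℝ => ((s, qs.2) : ℝ × E n)) qs.1 := by fun_prop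
      exact h1.comp qs.1 h3
    have h1 : HasDerivAt (fun s : ℝ => s - ts) 1 qs.1 := (hasDerivAt_id qs.1).sub_const ts
    have h2 := (h1.fun_inv hqs1.ne').const_mul ρ
    have h3 := hwd.hasDerivAt.sub h2
    have h4 : HasDerivAt (fun s => ψ (s, qs.2))
        (deriv (fun s => w (s, qs.2)) qs.1 - ρ * (-1 / (qs.1 - ts) ^ 2)) qs.1 := by
      refine h3.congr_of_eventuallyEq ?_
      filter_upwards with s
      show w (s, qs.2) - ρ / (s - ts) = w (s, qs.2) - ρ * (s - ts)⁻¹
      rw [div_eq_mul_inv]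
    rw [h4.deriv]
    ring
  have hF1 : D.F (v qs) φ qs = dt φ qs + D.L φ qs + G (v qs) := by
    unfold EqData.F
    rw [hg]
  have hF2 : D.F (w qs) w qs = dt w qs + D.L w qs + G (w qs) := by
    unfold EqData.F
    rw [hg]
  rw [hF1, hL, hdt] at hkey
  rw [hF2] at hkey2
  have hG := G_mono hqsw.le
  have hlast : 0 < ρ / (qs.1 - ts) ^ 2 := by positivity
  linarith

section Calculus

variable {n d : ℕ}

/-- The open box with the corner `a` and side length `π`. -/
def OBox (a : Fin n → ℝ) : Set (E n) := {x | ∀ i, a i < x i ∧ x i < a i + Real.pi}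

/-- The closed box with the corner `a` and side length `π`. -/
def CBox (a : Fin n → ℝ) : Set (E n) := {x | ∀ i, a i ≤ x i ∧ x i ≤ a i + Real.pi}

/-- The function `∑ log sin (x_i - a_i)`. -/
noncomputable def U (a : Fin n → ℝ) (x : E n) : ℝ := ∑ i, Real.log (Real.sin (x i - a i))

/-- The cotangents. -/
noncomputable def ct (a : Fin n → ℝ) (i : Fin n) (x : E n) : ℝ :=
  Real.cos (x i - a i) / Real.sin (x i - a i)

theorem sin_pos_of_mem {a : Fin n → ℝ} {x : E n} (hx : x ∈ OBox a) (i : Fin n) :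
    0 < Real.sin (x i - a i) :=
  Real.sin_pos_of_pos_of_lt_pi (by linarith [(hx i).1]) (by linarith [(hx i).2])

theorem isOpen_OBox (a : Fin n → ℝ) : IsOpen (OBox a) := by
  have : OBox a = ⋂ i, {x : E n | a i < x i ∧ x i < a i + Real.pi} := by
    ext x
    simp [OBox]
  rw [this]
  refine isOpen_iInter_of_finite fun i => ?_
  have hc : Continuous (fun x : E n => x i) := (EuclideanSpace.proj i : E n →L[ℝ] ℝ).continuous
  exact (isOpen_lt continuous_const hc).inter (isOpen_lt hc continuous_const)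

theorem isCompact_CBox (a : Fin n → ℝ) : IsCompact (CBox a) := by
  have h1 : IsCompact (Set.pi univ fun i => Icc (a i) (a i + Real.pi)) :=
    isCompact_univ_pi fun i => isCompact_Icc
  have h2 : CBox a = (WithLp.toLp 2) '' (Set.pi univ fun i => Icc (a i) (a i + Real.pi)) := by
    ext x
    constructor
    · intro hx
      exact ⟨fun i => x i, fun i _ => hx i, rfl⟩
    · rintro ⟨y, hy, rfl⟩ i
      exact hy i (mem_univ i)
  rw [h2]
  exact h1.image (PiLp.continuous_toLp 2 (fun _ : Fin n => ℝ))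

theorem OBox_subset (a : Fin n → ℝ) : OBox a ⊆ CBox a :=
  fun _ hx i => ⟨(hx i).1.le, (hx i).2.le⟩

/-- The linear form `v ↦ ∑ c_i v_i`. -/
noncomputable def lin (c : Fin n → ℝ) : E n →L[ℝ] ℝ :=
  ∑ i, c i • (EuclideanSpace.proj i : E n →L[ℝ] ℝ)

theorem lin_apply (c : Fin n → ℝ) (v : E n) : lin c v = ∑ i, c i * v i := by
  simp [lin]

theorem hasFDerivAt_U {a : Fin n → ℝ} {x : E n} (hx : x ∈ OBox a) :
    HasFDerivAt (U a) (lin fun i => ct a i x) x := by
  unfold U lin
  have h : ∀ i : Fin n, HasFDerivAt (fun x : E n => Real.log (Real.sin (x i - a i)))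
      (ct a i x • (EuclideanSpace.proj i : E n →L[ℝ] ℝ)) x := by
    intro i
    have h1 : HasFDerivAt (fun x : E n => x i - a i) (EuclideanSpace.proj i : E n →L[ℝ] ℝ) x :=
      ((EuclideanSpace.proj i : E n →L[ℝ] ℝ).hasFDerivAt).sub_const (a i)
    have h2 := h1.sin.log (sin_pos_of_mem hx i).ne'
    refine h2.congr_fderiv ?_
    rw [smul_smul]
    congr 1
    rw [ct, div_eq_inv_mul]
  exact HasFDerivAt.fun_sum fun i _ => h i

theorem hasFDerivAt_ct {a : Fin n → ℝ} {x : E n} (hx : x ∈ OBox a) (i : Fin n) :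
    HasFDerivAt (ct a i) ((-(1 / Real.sin (x i - a i) ^ 2)) •
      (EuclideanSpace.proj i : E n →L[ℝ] ℝ)) x := by
  have h1 : HasFDerivAt (fun x : E n => x i - a i) (EuclideanSpace.proj i : E n →L[ℝ] ℝ) x :=
    ((EuclideanSpace.proj i : E n →L[ℝ] ℝ).hasFDerivAt).sub_const (a i)
  have hs := (sin_pos_of_mem hx i).ne'
  have h0 : HasDerivAt (fun s : ℝ => Real.cos s / Real.sin s)
      (-(1 / Real.sin (x i - a i) ^ 2)) (x i - a i) := by
    have h2 := (Real.hasDerivAt_cos (x i - a i)).div (Real.hasDerivAt_sin (x i - a i)) hs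
    refine h2.congr_deriv ?_
    have h3 := Real.sin_sq_add_cos_sq (x i - a i)
    field_simp
    linarith
  exact h0.comp_hasFDerivAt x h1

theorem hasFDerivAt_comp {a : Fin n → ℝ} {x : E n} (hx : x ∈ OBox a) {f : ℝ → ℝ} {f' : ℝ}
    (hf : HasDerivAt f f' (U a x)) :
    HasFDerivAt (fun x => f (U a x)) (f' • lin fun i => ct a i x) x :=
  hf.comp_hasFDerivAt x (hasFDerivAt_U hx)

theorem contDiffOn_U (a : Fin n → ℝ) : ContDiffOn ℝ ((⊤ : ℕ∞) : WithTop ℕ∞) (U a) (OBox a) := by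
  unfold U
  refine ContDiffOn.sum fun i _ => ?_
  have h1 : ContDiff ℝ ((⊤ : ℕ∞) : WithTop ℕ∞) (fun x : E n => Real.sin (x i - a i)) :=
    Real.contDiff_sin.comp
      (((EuclideanSpace.proj i : E n →L[ℝ] ℝ).contDiff).sub contDiff_const)
  exact h1.contDiffOn.log fun x hx => (sin_pos_of_mem hx i).ne'

/-- The second derivative of `f (U x)`. -/
theorem hess_comp {a : Fin n → ℝ} {x : E n} (hx : x ∈ OBox a) {f f1 : ℝ → ℝ} {f2 : ℝ}
    (hfs : ContDiff ℝ ((⊤ : ℕ∞) : WithTop ℕ∞) f)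
    (hf : ∀ s, HasDerivAt f (f1 s) s) (hf1 : HasDerivAt f1 f2 (U a x)) (u v : E n) :
    iteratedFDeriv ℝ 2 (fun x => f (U a x)) x ![u, v] =
      f2 * (∑ i, ct a i x * u i) * (∑ i, ct a i x * v i) +
        f1 (U a x) * ∑ i, -(1 / Real.sin (x i - a i) ^ 2) * u i * v i := by
  rw [iteratedFDeriv_two_apply]
  simp only [Matrix.cons_val_zero, Matrix.cons_val_one]
  -- differentiability of the first derivative
  have hcd : ContDiffOn ℝ ((⊤ : ℕ∞) : WithTop ℕ∞) (fun x => f (U a x)) (OBox a) :=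
    hfs.comp_contDiffOn (contDiffOn_U a)
  have hcda : ContDiffAt ℝ ((⊤ : ℕ∞) : WithTop ℕ∞) (fun x => f (U a x)) x :=
    hcd.contDiffAt ((isOpen_OBox a).mem_nhds hx)
  have hd : DifferentiableAt ℝ (fderiv ℝ (fun x => f (U a x))) x := by
    have h2 : ContDiffAt ℝ 1 (fderiv ℝ (fun x => f (U a x))) x :=
      hcda.fderiv_right (m := 1) (by
        norm_cast)
    exact h2.differentiableAt (by norm_num)
  have h3 : HasFDerivAt (fun y => fderiv ℝ (fun x => f (U a x)) y v)
      ((ContinuousLinearMap.apply ℝ ℝ v).comp (fderiv ℝ (fderiv ℝ (fun x => f (U a x))) x)) x :=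
    (ContinuousLinearMap.apply ℝ ℝ v).hasFDerivAt.comp x hd.hasFDerivAt
  have h4 : (fun y => fderiv ℝ (fun x => f (U a x)) y v) =ᶠ[𝓝 x]
      fun y => f1 (U a y) * ∑ i, ct a i y * v i := by
    filter_upwards [(isOpen_OBox a).mem_nhds hx] with y hy
    rw [(hasFDerivAt_comp hy (hf (U a y))).fderiv]
    show f1 (U a y) • (lin (fun i => ct a i y)) v = _
    rw [lin_apply, smul_eq_mul]
  have h5 : HasFDerivAt (fun y => f1 (U a y) * ∑ i, ct a i y * v i)
      (f1 (U a x) • (∑ i, (v i) • ((-(1 / Real.sin (x i - a i) ^ 2)) •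
        (EuclideanSpace.proj i : E n →L[ℝ] ℝ))) +
        (∑ i, ct a i x * v i) • (f2 • lin fun i => ct a i x)) x := by
    have h6 : HasFDerivAt (fun y => ∑ i, ct a i y * v i)
        (∑ i, (v i) • ((-(1 / Real.sin (x i - a i) ^ 2)) •
          (EuclideanSpace.proj i : E n →L[ℝ] ℝ))) x :=
      HasFDerivAt.fun_sum fun i _ => (hasFDerivAt_ct hx i).mul_const (v i)
    exact (hasFDerivAt_comp hx hf1).mul h6
  have h7 := h3.unique (h5.congr_of_eventuallyEq h4)
  have h8 := congrArg (fun A : E n →L[ℝ] ℝ => A u) h7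
  have h9 : (fderiv ℝ (fderiv ℝ (fun x => f (U a x))) x) u v =
      (f1 (U a x) • (∑ i, (v i) • ((-(1 / Real.sin (x i - a i) ^ 2)) •
        (EuclideanSpace.proj i : E n →L[ℝ] ℝ))) +
        (∑ i, ct a i x * v i) • (f2 • lin fun i => ct a i x)) u := h8
  rw [h9]
  have h11 : ∀ i, (EuclideanSpace.proj i : E n →L[ℝ] ℝ) u = u i := fun i => rfl
  rw [add_apply, smul_apply, smul_apply, smul_apply, lin_apply, sum_apply]
  simp only [smul_apply, smul_eq_mul, h11]
  have h10 : ∑ i, v i * (-(1 / Real.sin (x i - a i) ^ 2) * u i)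
      = ∑ i, -(1 / Real.sin (x i - a i) ^ 2) * u i * v i :=
    Finset.sum_congr rfl fun i _ => by ring
  rw [h10]
  ring

/-- The drift part `∑ cot(x_i - a_i) b_i - (1/2) ∑ |σ_i|² / sin² (x_i - a_i)` of `L U`. -/
noncomputable def LU (D : EqData n d) (a : Fin n → ℝ) (q : ℝ × E n) : ℝ :=
  ∑ i, ct a i q.2 * D.b q.1 q.2 i -
    1 / 2 * ∑ i, (1 / Real.sin (q.2 i - a i) ^ 2) * ∑ k, D.σ q.1 q.2 i k ^ 2

/-- `|σ* ∇ U|²`. -/
noncomputable def SU (D : EqData n d) (a : Fin n → ℝ) (q : ℝ × E n) : ℝ :=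
  ∑ k, (∑ i, ct a i q.2 * D.σ q.1 q.2 i k) ^ 2

theorem L_comp (D : EqData n d) {a : Fin n → ℝ} {q : ℝ × E n} (hx : q.2 ∈ OBox a)
    {w : ℝ × E n → ℝ} {f f1 : ℝ → ℝ} {f2 : ℝ} (hw : ∀ x, w (q.1, x) = f (U a x))
    (hfs : ContDiff ℝ ((⊤ : ℕ∞) : WithTop ℕ∞) f)
    (hf : ∀ s, HasDerivAt f (f1 s) s) (hf1 : HasDerivAt f1 f2 (U a q.2)) :
    D.L w q = f1 (U a q.2) * LU D a q + 1 / 2 * f2 * SU D a q := by
  have hsl : (fun x => w (q.1, x)) = fun x => f (U a x) := funext hw
  have hgrad : inner ℝ (D.b q.1 q.2) (gradX w q) = f1 (U a q.2) * ∑ i, ct a i q.2 * D.b q.1 q.2 i := by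
    unfold gradX
    rw [hsl, real_inner_comm]
    unfold gradient
    rw [InnerProductSpace.toDual_symm_apply, (hasFDerivAt_comp hx (hf (U a q.2))).fderiv]
    show f1 (U a q.2) • (lin fun i => ct a i q.2) (D.b q.1 q.2) = _
    rw [lin_apply, smul_eq_mul]
  have hH : ∀ i j, hessX w q i j = f2 * ct a i q.2 * ct a j q.2 +
      (if i = j then f1 (U a q.2) * -(1 / Real.sin (q.2 i - a i) ^ 2) else 0) := by
    intro i j
    unfold hessX
    rw [Matrix.of_apply, hsl, hess_comp hx hfs hf hf1]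
    have e1 : ∀ (k : Fin n) (c : Fin n → ℝ),
        ∑ i, c i * (EuclideanSpace.single k (1:ℝ) : E n) i = c k := by
      intro k c
      rw [Finset.sum_eq_single k]
      · simp
      · intro l _ hl
        simp [hl]
      · intro h
        exact absurd (Finset.mem_univ k) h
    rw [e1, e1]
    have e2 : ∑ l, -(1 / Real.sin (q.2 l - a l) ^ 2) * (EuclideanSpace.single i (1:ℝ) : E n) l *
        (EuclideanSpace.single j (1:ℝ) : E n) l =
        if i = j then -(1 / Real.sin (q.2 i - a i) ^ 2) else 0 := by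
      rw [e1 j (fun l => -(1 / Real.sin (q.2 l - a l) ^ 2) *
        (EuclideanSpace.single i (1:ℝ) : E n) l)]
      by_cases hij : i = j
      · subst hij
        simp
      · have : ¬ j = i := fun h => hij h.symm
        simp [hij, this]
    rw [e2]
    split_ifs <;> ring
  have htr : (D.σ q.1 q.2 * (D.σ q.1 q.2).transpose * hessX w q).trace =
      f2 * SU D a q - f1 (U a q.2) *
        ∑ i, (1 / Real.sin (q.2 i - a i) ^ 2) * ∑ k, D.σ q.1 q.2 i k ^ 2 := by
    unfold Matrix.trace SU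
    simp only [Matrix.diag_apply, Matrix.mul_apply, Matrix.transpose_apply]
    simp only [hH]
    have e3 : ∀ i : Fin n, ∑ j, (∑ k, D.σ q.1 q.2 i k * D.σ q.1 q.2 j k) *
        (f2 * ct a j q.2 * ct a i q.2 +
          (if j = i then f1 (U a q.2) * -(1 / Real.sin (q.2 j - a j) ^ 2) else 0)) =
        f2 * ∑ k, (ct a i q.2 * D.σ q.1 q.2 i k) * (∑ j, ct a j q.2 * D.σ q.1 q.2 j k) -
          f1 (U a q.2) * ((1 / Real.sin (q.2 i - a i) ^ 2) * ∑ k, D.σ q.1 q.2 i k ^ 2) := by
      intro i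
      simp only [mul_add, Finset.sum_add_distrib]
      have e4 : ∑ j, (∑ k, D.σ q.1 q.2 i k * D.σ q.1 q.2 j k) *
          (if j = i then f1 (U a q.2) * -(1 / Real.sin (q.2 j - a j) ^ 2) else 0) =
          -(f1 (U a q.2) * ((1 / Real.sin (q.2 i - a i) ^ 2) * ∑ k, D.σ q.1 q.2 i k ^ 2)) := by
        rw [Finset.sum_eq_single i]
        · rw [if_pos rfl]
          have : ∑ k, D.σ q.1 q.2 i k * D.σ q.1 q.2 i k = ∑ k, D.σ q.1 q.2 i k ^ 2 :=
            Finset.sum_congr rfl fun k _ => by ring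
          rw [this]
          ring
        · intro j _ hj
          rw [if_neg hj, mul_zero]
        · intro h
          exact absurd (Finset.mem_univ i) h
      have e5 : ∑ j, (∑ k, D.σ q.1 q.2 i k * D.σ q.1 q.2 j k) * (f2 * ct a j q.2 * ct a i q.2) =
          f2 * ∑ k, (ct a i q.2 * D.σ q.1 q.2 i k) * (∑ j, ct a j q.2 * D.σ q.1 q.2 j k) := by
        simp only [Finset.mul_sum, Finset.sum_mul]
        rw [Finset.sum_comm]
        refine Finset.sum_congr rfl fun k _ => Finset.sum_congr rfl fun j _ => ?_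
        ring
      rw [e4, e5]
      ring
    rw [Finset.sum_congr rfl fun i _ => e3 i, Finset.sum_sub_distrib, ← Finset.mul_sum,
      ← Finset.mul_sum]
    congr 2
    rw [Finset.sum_comm]
    refine Finset.sum_congr rfl fun k _ => ?_
    rw [← Finset.sum_mul, sq]
  unfold EqData.L
  rw [hgrad, htr]
  unfold LU
  ring

theorem L_comp_ev (D : EqData n d) {a : Fin n → ℝ} {q : ℝ × E n} (hx : q.2 ∈ OBox a)
    {w : ℝ × E n → ℝ} {f f1 : ℝ → ℝ} {f2 : ℝ} (hw : ∀ x ∈ OBox a, w (q.1, x) = f (U a x))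
    (hfs : ContDiff ℝ ((⊤ : ℕ∞) : WithTop ℕ∞) f)
    (hf : ∀ s, HasDerivAt f (f1 s) s) (hf1 : HasDerivAt f1 f2 (U a q.2)) :
    D.L w q = f1 (U a q.2) * LU D a q + 1 / 2 * f2 * SU D a q := by
  have h1 : D.L w q = D.L (fun r : ℝ × E n => f (U a r.2)) q := by
    apply L_congr
    filter_upwards [(isOpen_OBox a).mem_nhds hx] with x hx'
    exact hw x hx'
  rw [h1]
  exact L_comp D hx (fun x => rfl) hfs hf hf1

end Calculus

section Bounds

variable {n d : ℕ}

theorem row_le_frob (A : Matrix (Fin n) (Fin d) ℝ) (i : Fin n) :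
    ∑ k, A i k ^ 2 ≤ frob A ^ 2 := by
  unfold frob
  rw [Real.sq_sqrt (Finset.sum_nonneg fun i _ => Finset.sum_nonneg fun j _ => sq_nonneg _)]
  exact Finset.single_le_sum (f := fun i => ∑ j, A i j ^ 2)
    (fun i _ => Finset.sum_nonneg fun j _ => sq_nonneg _) (Finset.mem_univ i)

/-- The open region: the part of the open box with the corner `a` on one side (given by the sign
`ς`) of the middle hyperplane `x_k = a_k + π/2`. -/
def OR (a : Fin n → ℝ) (k : Fin n) (ς : ℝ) : Set (E n) :=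
  {x | x ∈ OBox a ∧ ς * (x k - a k - Real.pi / 2) < 0}

/-- The closed region. -/
def CR (a : Fin n → ℝ) (k : Fin n) (ς : ℝ) : Set (E n) :=
  {x | x ∈ CBox a ∧ ς * (x k - a k - Real.pi / 2) ≤ 0}

theorem isOpen_OR (a : Fin n → ℝ) (k : Fin n) (ς : ℝ) : IsOpen (OR a k ς) := by
  have hc : Continuous (fun x : E n => x k) := (EuclideanSpace.proj k : E n →L[ℝ] ℝ).continuous
  have hc2 : Continuous (fun x : E n => ς * (x k - a k - Real.pi / 2)) :=
    continuous_const.mul ((hc.sub continuous_const).sub continuous_const)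
  exact (isOpen_OBox a).inter (isOpen_lt hc2 continuous_const)

theorem isCompact_CR (a : Fin n → ℝ) (k : Fin n) (ς : ℝ) : IsCompact (CR a k ς) := by
  have hc : Continuous (fun x : E n => x k) := (EuclideanSpace.proj k : E n →L[ℝ] ℝ).continuous
  have hc2 : Continuous (fun x : E n => ς * (x k - a k - Real.pi / 2)) :=
    continuous_const.mul ((hc.sub continuous_const).sub continuous_const)
  have h1 : IsClosed {x : E n | ς * (x k - a k - Real.pi / 2) ≤ 0} :=
    isClosed_le hc2 continuous_const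
  exact (isCompact_CBox a).inter_right h1

theorem OR_subset (a : Fin n → ℝ) (k : Fin n) (ς : ℝ) : OR a k ς ⊆ CR a k ς :=
  fun _ hx => ⟨OBox_subset a hx.1, hx.2.le⟩

/-- The properties of the coefficients that are used on the region. -/
structure Faces (D : EqData n d) (K s : ℝ) (a : Fin n → ℝ) (k : Fin n) (ς : ℝ) : Prop where
  K_pos : 0 < K
  sign : ς = 1 ∨ ς = -1
  s_nonneg : 0 ≤ s
  lip : ∀ t ∈ Icc 0 D.T, ∀ x x' : E n,
    ‖D.b t x - D.b t x'‖ + frob (D.σ t x - D.σ t x') ≤ K * ‖x - x'‖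
  face : ∀ t ∈ Icc s D.T, ∀ x ∈ CR a k ς, ∀ i : Fin n, (x i = a i ∨ x i = a i + Real.pi) →
    D.b t x i = 0 ∧ ∀ j, D.σ t x i j = 0

theorem near_face {D : EqData n d} {K s : ℝ} {a : Fin n → ℝ} {k : Fin n} {ς : ℝ}
    (h : Faces D K s a k ς) {t : ℝ}
    (ht : t ∈ Icc s D.T) {x : E n} (hx : x ∈ OR a k ς) (i : Fin n) :
    |D.b t x i| ≤ K * (Real.pi / 2) * Real.sin (x i - a i) ∧
      ∑ k, D.σ t x i k ^ 2 ≤ (K * (Real.pi / 2) * Real.sin (x i - a i)) ^ 2 := by
  have ht0 : t ∈ Icc 0 D.T := ⟨h.s_nonneg.trans ht.1, ht.2⟩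
  have hpi := Real.pi_pos
  -- move along the `i`-th axis to a face
  have key : ∀ r : ℝ, (x i + r = a i ∨ x i + r = a i + Real.pi) →
      (i = k → ς * (x i + r - a k - Real.pi / 2) ≤ 0) →
      |D.b t x i| ≤ K * |r| ∧ ∑ k, D.σ t x i k ^ 2 ≤ (K * |r|) ^ 2 := by
    intro r hr hrk
    obtain ⟨x', hx'⟩ : ∃ x' : E n, x' = x + EuclideanSpace.single i r := ⟨_, rfl⟩
    have h1 : x' i = x i + r := by
      rw [hx']
      simp
    have h1' : ∀ j, j ≠ i → x' j = x j := by
      intro j hj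
      rw [hx']
      simp [hj]
    have hmem : x' ∈ CR a k ς := by
      constructor
      · intro j
        by_cases hj : j = i
        · subst hj
          rw [h1]
          rcases hr with hr | hr
          · rw [hr]
            exact ⟨le_refl _, by linarith⟩
          · rw [hr]
            exact ⟨by linarith, le_refl _⟩
        · rw [h1' j hj]
          exact ⟨(hx.1 j).1.le, (hx.1 j).2.le⟩
      · by_cases hk : i = k
        · have := hrk hk
          rw [← h1] at this
          rw [← hk] at this ⊢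
          exact this
        · rw [h1' k (fun h => hk h.symm)]
          exact hx.2.le
    have h2 := h.face t ht x' hmem i (by rw [h1]; exact hr)
    have h3 := h.lip t ht0 x x'
    have h4 : ‖x - x'‖ = |r| := by
      rw [hx']
      have : x - (x + EuclideanSpace.single i r) = -(EuclideanSpace.single i r) := by abel
      rw [this, norm_neg]
      simp
    rw [h4] at h3
    have hfr : 0 ≤ frob (D.σ t x - D.σ t x') := Real.sqrt_nonneg _
    have hn : 0 ≤ ‖D.b t x - D.b t x'‖ := norm_nonneg _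
    constructor
    · have h5 : |D.b t x i| ≤ ‖D.b t x - D.b t x'‖ := by
        have h6 := PiLp.norm_apply_le (D.b t x - D.b t x') i
        have h7 : (D.b t x - D.b t x') i = D.b t x i := by
          rw [PiLp.sub_apply, h2.1, sub_zero]
        rw [h7, Real.norm_eq_abs] at h6
        exact h6
      linarith
    · have h5 := row_le_frob (D.σ t x - D.σ t x') i
      have h6 : ∑ k, (D.σ t x - D.σ t x') i k ^ 2 = ∑ k, D.σ t x i k ^ 2 := by
        refine Finset.sum_congr rfl fun k _ => ?_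
        rw [Matrix.sub_apply, h2.2 k, sub_zero]
      rw [h6] at h5
      refine h5.trans ?_
      have : frob (D.σ t x - D.σ t x') ≤ K * |r| := by linarith
      exact pow_le_pow_left₀ hfr this 2
  obtain ⟨θ, hθ⟩ : ∃ θ, θ = x i - a i := ⟨_, rfl⟩
  have h0 : 0 < θ := by rw [hθ]; linarith [(hx.1 i).1]
  have h1 : θ < Real.pi := by rw [hθ]; linarith [(hx.1 i).2]
  rw [← hθ]
  have hK := h.K_pos
  have hfin : ∀ r : ℝ, (x i + r = a i ∨ x i + r = a i + Real.pi) →
      (i = k → ς * (x i + r - a k - Real.pi / 2) ≤ 0) →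
      |r| ≤ Real.pi / 2 * Real.sin θ →
      |D.b t x i| ≤ K * (Real.pi / 2) * Real.sin θ ∧
        ∑ k, D.σ t x i k ^ 2 ≤ (K * (Real.pi / 2) * Real.sin θ) ^ 2 := by
    intro r hr hrk hr'
    obtain ⟨h2, h3⟩ := key r hr hrk
    have h4 : K * |r| ≤ K * (Real.pi / 2) * Real.sin θ := by
      rw [mul_assoc]
      exact mul_le_mul_of_nonneg_left hr' hK.le
    exact ⟨h2.trans h4, h3.trans (pow_le_pow_left₀ (by positivity) h4 2)⟩
  rcases le_total θ (Real.pi / 2) with h2 | h2
  · apply hfin (-θ) (Or.inl (by rw [hθ]; ring))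
    · intro hik
      have h3 : x i + -θ - a k - Real.pi / 2 = -(Real.pi / 2) := by rw [hθ, hik]; ring
      rw [h3]
      rcases h.sign with hs | hs
      · rw [hs]; linarith
      · exfalso
        have h4 := hx.2
        rw [hs, ← hik, ← hθ] at h4
        linarith
    · rw [abs_neg, abs_of_pos h0]
      have h3 := Real.mul_le_sin h0.le h2
      have h4 : Real.pi / 2 * (2 / Real.pi * θ) ≤ Real.pi / 2 * Real.sin θ :=
        mul_le_mul_of_nonneg_left h3 (by positivity)
      have h5 : Real.pi / 2 * (2 / Real.pi * θ) = θ := by field_simp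
      linarith
  · apply hfin (Real.pi - θ) (Or.inr (by rw [hθ]; ring))
    · intro hik
      have h3 : x i + (Real.pi - θ) - a k - Real.pi / 2 = Real.pi / 2 := by rw [hθ, hik]; ring
      rw [h3]
      rcases h.sign with hs | hs
      · exfalso
        have h4 := hx.2
        rw [hs, ← hik, ← hθ] at h4
        linarith
      · rw [hs]; linarith
    · rw [abs_of_pos (by linarith)]
      have h3 := Real.mul_le_sin (show 0 ≤ Real.pi - θ by linarith) (by linarith)
      rw [Real.sin_pi_sub] at h3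
      have h4 : Real.pi / 2 * (2 / Real.pi * (Real.pi - θ)) ≤ Real.pi / 2 * Real.sin θ :=
        mul_le_mul_of_nonneg_left h3 (by positivity)
      have h5 : Real.pi / 2 * (2 / Real.pi * (Real.pi - θ)) = Real.pi - θ := by field_simp
      linarith

/-- The constant in the bounds for `L U` and `|σ* ∇ U|²`. -/
noncomputable def CC (n : ℕ) (K : ℝ) : ℝ :=
  n * (K * (Real.pi / 2)) + n * (K * (Real.pi / 2)) ^ 2 + n ^ 2 * (K * (Real.pi / 2)) ^ 2 + 1

theorem one_le_CC (n : ℕ) {K : ℝ} (hK : 0 < K) : 1 ≤ CC n K := by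
  unfold CC
  have hpi := Real.pi_pos
  have h1 : 0 ≤ (n:ℝ) * (K * (Real.pi / 2)) := by positivity
  have h2 : 0 ≤ (n:ℝ) * (K * (Real.pi / 2)) ^ 2 := by positivity
  have h3 : 0 ≤ (n:ℝ) ^ 2 * (K * (Real.pi / 2)) ^ 2 := by positivity
  linarith

theorem abs_LU_le {D : EqData n d} {K s : ℝ} {a : Fin n → ℝ} {k : Fin n} {ς : ℝ}
    (h : Faces D K s a k ς) {q : ℝ × E n}
    (ht : q.1 ∈ Icc s D.T) (hx : q.2 ∈ OR a k ς) : |LU D a q| ≤ CC n K := by
  obtain ⟨M, hM⟩ : ∃ M, M = K * (Real.pi / 2) := ⟨_, rfl⟩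
  have hM0 : 0 < M := by rw [hM]; exact mul_pos h.K_pos (by positivity)
  have h1 : |∑ i, ct a i q.2 * D.b q.1 q.2 i| ≤ n * M := by
    refine (Finset.abs_sum_le_sum_abs _ _).trans ?_
    have : ∀ i ∈ (Finset.univ : Finset (Fin n)), |ct a i q.2 * D.b q.1 q.2 i| ≤ M := by
      intro i _
      have hs := sin_pos_of_mem hx.1 i
      have h2 := (near_face h ht hx i).1
      rw [← hM] at h2
      rw [abs_mul, ct, abs_div, abs_of_pos hs]
      calc |Real.cos (q.2 i - a i)| / Real.sin (q.2 i - a i) * |D.b q.1 q.2 i|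
          ≤ 1 / Real.sin (q.2 i - a i) * (M * Real.sin (q.2 i - a i)) := by
            apply mul_le_mul _ h2 (abs_nonneg _) (by positivity)
            exact div_le_div_of_nonneg_right (Real.abs_cos_le_one _) hs.le
        _ = M := by field_simp
    refine (Finset.sum_le_card_nsmul _ _ _ this).trans ?_
    simp
  have h2 : ∑ i, (1 / Real.sin (q.2 i - a i) ^ 2) * ∑ k, D.σ q.1 q.2 i k ^ 2 ≤ n * M ^ 2 := by
    have : ∀ i ∈ (Finset.univ : Finset (Fin n)),
        (1 / Real.sin (q.2 i - a i) ^ 2) * ∑ k, D.σ q.1 q.2 i k ^ 2 ≤ M ^ 2 := by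
      intro i _
      have hs := sin_pos_of_mem hx.1 i
      have h2 := (near_face h ht hx i).2
      rw [← hM] at h2
      calc (1 / Real.sin (q.2 i - a i) ^ 2) * ∑ k, D.σ q.1 q.2 i k ^ 2
          ≤ (1 / Real.sin (q.2 i - a i) ^ 2) * (M * Real.sin (q.2 i - a i)) ^ 2 :=
            mul_le_mul_of_nonneg_left h2 (by positivity)
        _ = M ^ 2 := by field_simp
    refine (Finset.sum_le_card_nsmul _ _ _ this).trans ?_
    simp
  have h3 : 0 ≤ ∑ i, (1 / Real.sin (q.2 i - a i) ^ 2) * ∑ k, D.σ q.1 q.2 i k ^ 2 :=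
    Finset.sum_nonneg fun i _ => mul_nonneg (by positivity)
      (Finset.sum_nonneg fun k _ => sq_nonneg _)
  unfold LU CC
  rw [← hM]
  have h4 : 0 ≤ (n:ℝ) ^ 2 * M ^ 2 := by positivity
  have h5 := abs_le.1 h1
  have h6 : 0 ≤ (n:ℝ) * M := by positivity
  have h7 : 0 ≤ (n:ℝ) * M ^ 2 := by positivity
  rw [abs_le]
  constructor <;> linarith [h5.1, h5.2]

theorem SU_nonneg (D : EqData n d) (a : Fin n → ℝ) (q : ℝ × E n) : 0 ≤ SU D a q :=
  Finset.sum_nonneg fun _ _ => sq_nonneg _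

theorem SU_le {D : EqData n d} {K s : ℝ} {a : Fin n → ℝ} {k : Fin n} {ς : ℝ}
    (h : Faces D K s a k ς) {q : ℝ × E n}
    (ht : q.1 ∈ Icc s D.T) (hx : q.2 ∈ OR a k ς) : SU D a q ≤ CC n K := by
  obtain ⟨M, hM⟩ : ∃ M, M = K * (Real.pi / 2) := ⟨_, rfl⟩
  have hM0 : 0 < M := by rw [hM]; exact mul_pos h.K_pos (by positivity)
  have h1 : SU D a q ≤ ∑ k, (n:ℝ) * ∑ i, (ct a i q.2 * D.σ q.1 q.2 i k) ^ 2 := by
    unfold SU
    refine Finset.sum_le_sum fun k _ => ?_
    have := sq_sum_le_card_mul_sum_sq (s := (Finset.univ : Finset (Fin n)))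
      (f := fun i => ct a i q.2 * D.σ q.1 q.2 i k)
    simpa using this
  have h2 : ∑ k, (n:ℝ) * ∑ i, (ct a i q.2 * D.σ q.1 q.2 i k) ^ 2 =
      n * ∑ i, ct a i q.2 ^ 2 * ∑ k, D.σ q.1 q.2 i k ^ 2 := by
    rw [← Finset.mul_sum, Finset.sum_comm]
    congr 1
    refine Finset.sum_congr rfl fun i _ => ?_
    rw [Finset.mul_sum]
    refine Finset.sum_congr rfl fun k _ => ?_
    ring
  have h3 : ∑ i, ct a i q.2 ^ 2 * ∑ k, D.σ q.1 q.2 i k ^ 2 ≤ n * M ^ 2 := by
    have : ∀ i ∈ (Finset.univ : Finset (Fin n)),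
        ct a i q.2 ^ 2 * ∑ k, D.σ q.1 q.2 i k ^ 2 ≤ M ^ 2 := by
      intro i _
      have hs := sin_pos_of_mem hx.1 i
      have h2 := (near_face h ht hx i).2
      rw [← hM] at h2
      have hc : Real.cos (q.2 i - a i) ^ 2 ≤ 1 := by
        have := Real.sin_sq_add_cos_sq (q.2 i - a i)
        nlinarith [sq_nonneg (Real.sin (q.2 i - a i))]
      calc ct a i q.2 ^ 2 * ∑ k, D.σ q.1 q.2 i k ^ 2
          ≤ ct a i q.2 ^ 2 * (M * Real.sin (q.2 i - a i)) ^ 2 :=
            mul_le_mul_of_nonneg_left h2 (sq_nonneg _)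
        _ = Real.cos (q.2 i - a i) ^ 2 * M ^ 2 := by
            rw [ct]
            field_simp
        _ ≤ 1 * M ^ 2 := mul_le_mul_of_nonneg_right hc (sq_nonneg _)
        _ = M ^ 2 := one_mul _
    refine (Finset.sum_le_card_nsmul _ _ _ this).trans ?_
    simp
  rw [h2] at h1
  have h4 : (n:ℝ) * ∑ i, ct a i q.2 ^ 2 * ∑ k, D.σ q.1 q.2 i k ^ 2 ≤ n * (n * M ^ 2) :=
    mul_le_mul_of_nonneg_left h3 (Nat.cast_nonneg n)
  unfold CC
  rw [← hM]
  have h5 : (n:ℝ) * (n * M ^ 2) = n ^ 2 * M ^ 2 := by ring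
  have h6 : 0 ≤ (n:ℝ) * M := by positivity
  have h7 : 0 ≤ (n:ℝ) * M ^ 2 := by positivity
  linarith

theorem U_nonpos {a : Fin n → ℝ} {x : E n} (hx : x ∈ OBox a) : U a x ≤ 0 :=
  Finset.sum_nonpos fun i _ => Real.log_nonpos (sin_pos_of_mem hx i).le (Real.sin_le_one _)

end Bounds

/-! ### The barriers -/

theorem G_lower {z : ℝ} (hz : 0 ≤ z) : -(2 * z) ≤ G (-(z ^ 2)) := by
  rw [G_neg, G_of_nonneg (sq_nonneg z), Real.sqrt_sq hz]
  linarith [min_le_left z 1]

theorem G_upper {z : ℝ} (hz : 0 ≤ z) (hz1 : z ≤ 1) : G (z ^ 2) = 2 * z := by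
  rw [G_of_nonneg (sq_nonneg z), Real.sqrt_sq hz, min_eq_left hz1]

/-- The inequality behind the second barrier. -/
theorem barrier_ineq {ε C c l s : ℝ} (hε : 0 < ε) (hC : 1 ≤ C) (hεC : 10 * C * ε ≤ 1)
    (hc1 : -1 < c) (hc2 : c < 1) (hl : |l| ≤ C) (hs0 : 0 ≤ s) (hs : s ≤ C) :
    0 ≤ 2 * ε * c + ε * (1 - c ^ 2) + ε ^ 2 * (1 - c ^ 2) * l + ε ^ 2 * (1 - c ^ 2) * c * s +
      G (-(ε ^ 2 * c)) := by
  have hl' := abs_le.1 hl
  have hcc : 0 ≤ 1 - c ^ 2 := by nlinarith
  have hε2 : 0 ≤ ε ^ 2 * (1 - c ^ 2) := by positivity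
  have h1 : -(ε ^ 2 * (1 - c ^ 2) * C) ≤ ε ^ 2 * (1 - c ^ 2) * l := by
    nlinarith [mul_le_mul_of_nonneg_left hl'.1 hε2]
  have hε1 : ε ≤ 1 := by nlinarith
  have hεC' : ε * C ≤ 1 / 10 := by linarith
  rcases le_total 0 c with hc | hc
  · obtain ⟨r, hr⟩ : ∃ r, r = √c := ⟨_, rfl⟩
    have hr0 : 0 ≤ r := by rw [hr]; exact Real.sqrt_nonneg c
    have hrc : c = r ^ 2 := by rw [hr, Real.sq_sqrt hc]
    have hr1 : r < 1 := by
      by_contra h
      push Not at h
      nlinarith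
    have h2 : 0 ≤ ε ^ 2 * (1 - c ^ 2) * c * s := by positivity
    have h3 : -(2 * (ε * r)) ≤ G (-(ε ^ 2 * c)) := by
      have : ε ^ 2 * c = (ε * r) ^ 2 := by rw [hrc]; ring
      rw [this]
      exact G_lower (by positivity)
    have h4 : ε ^ 2 * (1 - c ^ 2) * C ≤ ε * (1 - c ^ 2) * (1 / 10) := by
      have : ε ^ 2 * (1 - c ^ 2) * C = ε * (1 - c ^ 2) * (ε * C) := by ring
      rw [this]
      exact mul_le_mul_of_nonneg_left hεC' (by positivity)
    have h5 : 0 ≤ 2 * r ^ 2 + (1 - (r ^ 2) ^ 2) * (9 / 10) - 2 * r := by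
      have : 2 * r ^ 2 + (1 - (r ^ 2) ^ 2) * (9 / 10) - 2 * r =
          (1 - r) * ((9 / 10) * (1 + r + r ^ 2 + r ^ 3) - 2 * r) := by ring
      rw [this]
      apply mul_nonneg (by linarith)
      nlinarith [sq_nonneg (r - 1 / 2), mul_nonneg hr0 (sq_nonneg r), mul_nonneg hr0 (sq_nonneg (r - 1 / 2))]
    have h6 : 0 ≤ ε * (2 * r ^ 2 + (1 - (r ^ 2) ^ 2) * (9 / 10) - 2 * r) := mul_nonneg hε.le h5
    rw [← hrc] at h6
    nlinarith
  · obtain ⟨m, hm⟩ : ∃ m, m = -c := ⟨_, rfl⟩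
    have hm0 : 0 ≤ m := by linarith
    have hm1 : m < 1 := by linarith
    have hcm : c = -m := by linarith
    have h2 : -(ε ^ 2 * (1 - c ^ 2) * C) ≤ ε ^ 2 * (1 - c ^ 2) * c * s := by
      have h3 : -C ≤ c * s := by
        rw [hcm]
        nlinarith [mul_le_mul_of_nonneg_right hm1.le hs0]
      nlinarith [mul_le_mul_of_nonneg_left h3 hε2]
    have h3 : G (-(ε ^ 2 * c)) = 2 * (ε * √m) := by
      have : -(ε ^ 2 * c) = (ε * √m) ^ 2 := by
        rw [mul_pow, Real.sq_sqrt hm0, hcm]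
        ring
      rw [this]
      apply G_upper (by positivity)
      have : √m ≤ 1 := Real.sqrt_le_iff.2 ⟨zero_le_one, by linarith⟩
      nlinarith [Real.sqrt_nonneg m]
    have h4 : m ≤ √m := by
      apply Real.le_sqrt_of_sq_le
      nlinarith
    have h5 : ε ^ 2 * (1 - c ^ 2) * C ≤ ε * (1 - c ^ 2) * (1 / 10) := by
      have : ε ^ 2 * (1 - c ^ 2) * C = ε * (1 - c ^ 2) * (ε * C) := by ring
      rw [this]
      exact mul_le_mul_of_nonneg_left hεC' (by positivity)
    have h6 : ε * m ≤ ε * √m := mul_le_mul_of_nonneg_left h4 hε.le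
    have h7 : 0 ≤ ε * (1 - c ^ 2) := by positivity
    rw [h3]
    have h8 : 2 * ε * c = -(2 * (ε * m)) := by rw [hcm]; ring
    rw [h8]
    linarith

section Barriers

variable {n d : ℕ}

/-- Points of a smaller box. -/
theorem subbox_compact (a : Fin n → ℝ) (η : ℝ) :
    IsCompact {x : E n | ∀ i, a i + η ≤ x i ∧ x i ≤ a i + Real.pi - η} := by
  have h1 : IsCompact (Set.pi univ fun i => Icc (a i + η) (a i + Real.pi - η)) :=
    isCompact_univ_pi fun i => isCompact_Icc
  have h2 : {x : E n | ∀ i, a i + η ≤ x i ∧ x i ≤ a i + Real.pi - η} =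
      (WithLp.toLp 2) '' (Set.pi univ fun i => Icc (a i + η) (a i + Real.pi - η)) := by
    ext x
    constructor
    · intro hx
      exact ⟨fun i => x i, fun i _ => hx i, rfl⟩
    · rintro ⟨y, hy, rfl⟩ i
      exact hy i (mem_univ i)
  rw [h2]
  exact h1.image (PiLp.continuous_toLp 2 (fun _ : Fin n => ℝ))

theorem subbox_open (a : Fin n → ℝ) (η : ℝ) :
    IsOpen {x : E n | ∀ i, a i + η < x i ∧ x i < a i + Real.pi - η} := by
  have : {x : E n | ∀ i, a i + η < x i ∧ x i < a i + Real.pi - η} =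
      ⋂ i, {x : E n | a i + η < x i ∧ x i < a i + Real.pi - η} := by
    ext x
    simp
  rw [this]
  refine isOpen_iInter_of_finite fun i => ?_
  have hc : Continuous (fun x : E n => x i) := (EuclideanSpace.proj i : E n →L[ℝ] ℝ).continuous
  exact (isOpen_lt continuous_const hc).inter (isOpen_lt hc continuous_const)

/-- The values `sin η` bound the smallest sine off the smaller box. -/
theorem U_le_of_not_mem {a : Fin n → ℝ} {η : ℝ} (hη : 0 < η) (hη2 : η < Real.pi / 2) {x : E n}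
    (hx : x ∈ OBox a) (hx' : ¬ ∀ i, a i + η < x i ∧ x i < a i + Real.pi - η) :
    U a x ≤ Real.log (Real.sin η) := by
  push Not at hx'
  obtain ⟨i, hi⟩ := hx'
  have hpi := Real.pi_pos
  have h1 : Real.sin (x i - a i) ≤ Real.sin η := by
    by_cases h : a i + η < x i
    · have h2 := hi h
      rw [← Real.sin_pi_sub (x i - a i)]
      apply Real.sin_le_sin_of_le_of_le_pi_div_two
      · linarith [(hx i).2]
      · linarith
      · linarith
    · push Not at h
      apply Real.sin_le_sin_of_le_of_le_pi_div_two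
      · linarith [(hx i).1]
      · linarith
      · linarith
  have h2 : Real.log (Real.sin (x i - a i)) ≤ Real.log (Real.sin η) :=
    Real.log_le_log (sin_pos_of_mem hx i) h1
  have h3 : U a x ≤ Real.log (Real.sin (x i - a i)) := by
    unfold U
    rw [← Finset.add_sum_erase _ _ (Finset.mem_univ i)]
    have : ∑ j ∈ Finset.univ.erase i, Real.log (Real.sin (x j - a j)) ≤ 0 :=
      Finset.sum_nonpos fun j _ => Real.log_nonpos (sin_pos_of_mem hx j).le (Real.sin_le_one _)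
    linarith
  linarith

/-- `v` is a continuous supersolution on `[c, T]` with terminal values at least `sin (x_k - a_k)` on
the region, and `v ≥ 1/2` on the far face `x_k = a_k + π/2`. -/
structure SuperOn (D : EqData n d) (a : Fin n → ℝ) (k : Fin n) (ς c : ℝ) (v : ℝ × E n → ℝ) :
    Prop where
  cont : ContinuousOn v (Icc c D.T ×ˢ univ)
  sup : ∀ φ : ℝ × E n → ℝ, ContDiff ℝ ((⊤ : ℕ∞) : WithTop ℕ∞) φ → ∀ q : ℝ × E n,
    q.1 ∈ Ioo c D.T → IsLocalMin (fun r => v r - φ r) q → D.F (v q) φ q ≤ 0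
  term : ∀ x ∈ CR a k ς, Real.sin (x k - a k) ≤ v (D.T, x)
  far : ∀ t ∈ Icc c D.T, ∀ x ∈ CR a k ς, x k - a k - Real.pi / 2 = 0 → 1 / 2 ≤ v (t, x)

theorem sin_nonneg_of_mem {a : Fin n → ℝ} {x : E n} (hx : x ∈ CBox a) (i : Fin n) :
    0 ≤ Real.sin (x i - a i) :=
  Real.sin_nonneg_of_nonneg_of_le_pi (by linarith [(hx i).1]) (by linarith [(hx i).2])

/-- First barrier: `v ≥ -((1 + 2 γ C) (T - t + γ) - γ U)²`. -/
theorem lower_pre {D : EqData n d} (hg : ∀ t x y z, D.g t x y z = G y) {K : ℝ} {a : Fin n → ℝ}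
    {s₀ : ℝ} {k : Fin n} {ς : ℝ} (h : Faces D K s₀ a k ς) {c : ℝ} (hc0 : s₀ ≤ c) (hcT : c < D.T)
    {v : ℝ × E n → ℝ} (hv : SuperOn D a k ς c v)
    {γ : ℝ} (hγ : 0 < γ) {t : ℝ} (ht : t ∈ Ioc c D.T)
    {x : E n} (hx : x ∈ OR a k ς) :
    -(((1 + 2 * γ * CC n K) * (D.T - t + γ) - γ * U a x) ^ 2) ≤ v (t, x) := by
  have hpi := Real.pi_pos
  have hC := one_le_CC n h.K_pos
  obtain ⟨C, hCdef⟩ : ∃ C, C = CC n K := ⟨_, rfl⟩
  rw [← hCdef] at hC ⊢
  let w : ℝ × E n → ℝ := fun q => -(((1 + 2 * γ * C) * (D.T - q.1 + γ) - γ * U a q.2) ^ 2)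
  -- a bound for `v`
  have hKc : IsCompact (Icc c D.T ×ˢ (CR a k ς : Set (E n))) :=
    isCompact_Icc.prod (isCompact_CR a k ς)
  obtain ⟨N, hN⟩ := hKc.exists_bound_of_continuousOn
    (hv.cont.mono (prod_mono (le_refl _) (subset_univ _)))
  have hN0 : 0 ≤ N := (norm_nonneg _).trans (hN (c, x) ⟨⟨le_refl _, hcT.le⟩, OR_subset a k ς hx⟩)
  -- choose the smaller box
  obtain ⟨η, hη, hη2, hηN, hηx⟩ : ∃ η : ℝ, 0 < η ∧ η < Real.pi / 2 ∧
      γ * Real.log (Real.sin η) ≤ -(N + 1) ∧ ∀ i, a i + η < x i ∧ x i < a i + Real.pi - η := by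
    have h1 : Tendsto (fun η : ℝ => Real.log (Real.sin η)) (𝓝[>] 0) atBot := by
      have h2 : Tendsto (fun η : ℝ => Real.sin η) (𝓝[>] 0) (𝓝[>] 0) := by
        refine tendsto_nhdsWithin_iff.2 ⟨?_, ?_⟩
        · have : Tendsto Real.sin (𝓝 0) (𝓝 (Real.sin 0)) := Real.continuous_sin.tendsto 0
          rw [Real.sin_zero] at this
          exact this.mono_left nhdsWithin_le_nhds
        · filter_upwards [Ioo_mem_nhdsGT hpi] with s hs
          exact Real.sin_pos_of_pos_of_lt_pi hs.1 hs.2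
      exact Real.tendsto_log_nhdsGT_zero.comp h2
    have h2 : ∀ᶠ η : ℝ in 𝓝[>] 0, Real.log (Real.sin η) ≤ -((N + 1) / γ) :=
      h1.eventually (eventually_le_atBot _)
    have h3 : ∀ᶠ η : ℝ in 𝓝[>] 0, η ∈ Ioo 0 (Real.pi / 2) := Ioo_mem_nhdsGT (by positivity)
    have h4 : ∀ᶠ η : ℝ in 𝓝[>] 0, ∀ i, a i + η < x i ∧ x i < a i + Real.pi - η := by
      rw [eventually_all]
      intro i
      have h5 : 0 < min (x i - a i) (a i + Real.pi - x i) :=
        lt_min (by linarith [(hx.1 i).1]) (by linarith [(hx.1 i).2])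
      filter_upwards [Ioo_mem_nhdsGT h5] with s hs
      have h6 := lt_min_iff.1 hs.2
      exact ⟨by linarith [h6.1], by linarith [h6.2]⟩
    obtain ⟨η, ⟨h5, h6⟩, h7⟩ := ((h2.and h3).and h4).exists
    refine ⟨η, h6.1, h6.2, ?_, h7⟩
    have h8 : γ * Real.log (Real.sin η) ≤ γ * (-((N + 1) / γ)) :=
      mul_le_mul_of_nonneg_left h5 hγ.le
    have h9 : γ * (-((N + 1) / γ)) = -(N + 1) := by field_simp
    linarith
  obtain ⟨Q, hQ⟩ : ∃ Q : Set (E n), Q = {x : E n | ∀ i, a i + η ≤ x i ∧ x i ≤ a i + Real.pi - η} ∩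
    CR a k ς := ⟨_, rfl⟩
  obtain ⟨O, hO⟩ : ∃ O : Set (E n), O = {x : E n | ∀ i, a i + η < x i ∧ x i < a i + Real.pi - η} ∩
    OR a k ς := ⟨_, rfl⟩
  have hQB : Q ⊆ OBox a := by
    intro y hy i
    rw [hQ] at hy
    exact ⟨by linarith [(hy.1 i).1], by linarith [(hy.1 i).2]⟩
  have hQC : Q ⊆ CR a k ς := by
    intro y hy
    rw [hQ] at hy
    exact hy.2
  have hOR : O ⊆ OR a k ς := by
    intro y hy
    rw [hO] at hy
    exact hy.2
  have hOQ : O ⊆ Q := by
    intro y hy
    rw [hO] at hy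
    rw [hQ]
    exact ⟨fun i => ⟨(hy.1 i).1.le, (hy.1 i).2.le⟩, OR_subset a k ς hy.2⟩
  have hUs : ContDiffOn ℝ ((⊤ : ℕ∞) : WithTop ℕ∞) (fun q : ℝ × E n => U a q.2)
      (univ ×ˢ OBox a) :=
    (contDiffOn_U a).comp contDiff_snd.contDiffOn (fun q hq => hq.2)
  have hws : ContDiffOn ℝ ((⊤ : ℕ∞) : WithTop ℕ∞) w (univ ×ˢ OBox a) := by
    have h1 : ContDiffOn ℝ ((⊤ : ℕ∞) : WithTop ℕ∞)
        (fun q : ℝ × E n => (1 + 2 * γ * C) * (D.T - q.1 + γ)) (univ ×ˢ OBox a) :=
      (contDiff_const.mul ((contDiff_const.sub contDiff_fst).add contDiff_const)).contDiffOn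
    exact ((h1.sub (contDiffOn_const.mul hUs)).pow 2).neg
  have hZ : ∀ q : ℝ × E n, q.1 ≤ D.T → q.2 ∈ OBox a →
      γ ≤ (1 + 2 * γ * C) * (D.T - q.1 + γ) - γ * U a q.2 := by
    intro q hq1 hq2
    have h1 := U_nonpos hq2
    have h2 : γ * U a q.2 ≤ 0 := mul_nonpos_of_nonneg_of_nonpos hγ.le h1
    have h3 : 0 ≤ 2 * γ * C * (D.T - q.1 + γ) := by
      have : 0 ≤ D.T - q.1 + γ := by linarith
      positivity
    nlinarith
  have hmain := contact D hg (c := c) (T := D.T) (Q := Q) (O := O) (v := v) (w := w)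
    (by rw [hQ]; exact (subbox_compact a η).inter_right (isCompact_CR a k ς).isClosed)
    (by rw [hO]; exact (subbox_open a η).inter (isOpen_OR a k ς)) hOQ
    (hv.cont.mono (prod_mono (le_refl _) (subset_univ _)))
    (hws.continuousOn.mono (prod_mono (subset_univ _) hQB))
    (by
      intro y hy
      have h1 := hZ (D.T, y) (le_refl _) (hQB hy)
      have h2 := (sin_nonneg_of_mem (OBox_subset a (hQB hy)) k).trans (hv.term y (hQC hy))
      have h3 : w (D.T, y) < 0 := by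
        show -(((1 + 2 * γ * C) * (D.T - D.T + γ) - γ * U a y) ^ 2) < 0
        have h4 : 0 < (1 + 2 * γ * C) * (D.T - D.T + γ) - γ * U a y := lt_of_lt_of_le hγ h1
        have : 0 < ((1 + 2 * γ * C) * (D.T - D.T + γ) - γ * U a y) ^ 2 := by positivity
        linarith
      linarith)
    (by
      intro s hs y hy hyO
      have h5 : 0 ≤ (1 + 2 * γ * C) * (D.T - s + γ) := by
        have : 0 ≤ D.T - s + γ := by linarith [hs.2]
        positivity
      by_cases hfar : y k - a k - Real.pi / 2 = 0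
      · have h1 := hv.far s ⟨hs.1.le, hs.2⟩ y (hQC hy) hfar
        show -(((1 + 2 * γ * C) * (D.T - s + γ) - γ * U a y) ^ 2) < v (s, y)
        have := sq_nonneg ((1 + 2 * γ * C) * (D.T - s + γ) - γ * U a y)
        linarith
      have hyO' : ¬ ∀ i, a i + η < y i ∧ y i < a i + Real.pi - η := by
        intro h1
        apply hyO
        rw [hO]
        refine ⟨h1, hQB hy, ?_⟩
        rcases lt_or_eq_of_le (hQC hy).2 with h2 | h2
        · exact h2
        · exfalso
          apply hfar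
          rcases mul_eq_zero.1 h2 with h3 | h3
          · rcases h.sign with h4 | h4 <;> rw [h4] at h3 <;> norm_num at h3
          · exact h3
      have h1 := U_le_of_not_mem hη hη2 (hQB hy) hyO'
      have h2 : γ * U a y ≤ γ * Real.log (Real.sin η) := mul_le_mul_of_nonneg_left h1 hγ.le
      have h3 := hN (s, y) ⟨⟨hs.1.le, hs.2⟩, hQC hy⟩
      rw [Real.norm_eq_abs] at h3
      have h4 := (abs_le.1 h3).1
      have h6 : N + 1 ≤ (1 + 2 * γ * C) * (D.T - s + γ) - γ * U a y := by linarith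
      show -(((1 + 2 * γ * C) * (D.T - s + γ) - γ * U a y) ^ 2) < v (s, y)
      nlinarith)
    (fun φ hφ q hq _ hloc => hv.sup φ hφ q hq hloc)
    (hws.mono (prod_mono (subset_univ _) (hOQ.trans hQB)))
    (by
      intro q hq1 hq2
      have hqB : q.2 ∈ OBox a := hQB (hOQ hq2)
      have hqR : q.2 ∈ OR a k ς := hOR hq2
      have hqT : q.1 ∈ Icc s₀ D.T := ⟨by linarith [hq1.1], hq1.2.le⟩
      obtain ⟨A, hA⟩ : ∃ A, A = (1 + 2 * γ * C) * (D.T - q.1 + γ) := ⟨_, rfl⟩
      obtain ⟨Z, hZdef⟩ : ∃ Z, Z = A - γ * U a q.2 := ⟨_, rfl⟩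
      have hZγ : γ ≤ Z := by
        rw [hZdef, hA]
        exact hZ q hq1.2.le hqB
      have hZ0 : 0 < Z := lt_of_lt_of_le hγ hZγ
      have hL := L_comp D (a := a) (q := q) hqB (w := w) (f := fun s => -((A - γ * s) ^ 2))
        (f1 := fun s => 2 * γ * (A - γ * s)) (f2 := -(2 * γ ^ 2))
        (by
          intro y
          rw [hA])
        (by
          have h1 : ContDiff ℝ ((⊤ : ℕ∞) : WithTop ℕ∞) (fun s : ℝ => A - γ * s) :=
            contDiff_const.sub (contDiff_const.mul contDiff_id)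
          exact (h1.pow 2).neg)
        (by
          intro s
          have h1 : HasDerivAt (fun s : ℝ => A - γ * s) (-(γ * 1)) s :=
            ((hasDerivAt_id s).const_mul γ).const_sub A
          have h2 := (h1.fun_pow 2).fun_neg
          refine h2.congr_deriv ?_
          simp only [Nat.cast_ofNat]
          ring)
        (by
          have h1 : HasDerivAt (fun s : ℝ => A - γ * s) (-(γ * 1)) (U a q.2) :=
            ((hasDerivAt_id (U a q.2)).const_mul γ).const_sub A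
          refine (h1.const_mul (2 * γ)).congr_deriv ?_
          ring)
      have hdt : dt w q = 2 * Z * (1 + 2 * γ * C) := by
        unfold dt
        have h1 : HasDerivAt (fun s : ℝ => (1 + 2 * γ * C) * (D.T - s + γ) - γ * U a q.2)
            ((1 + 2 * γ * C) * (-1)) q.1 := by
          have h2 : HasDerivAt (fun s : ℝ => D.T - s + γ) (-1) q.1 :=
            ((hasDerivAt_id q.1).const_sub D.T).add_const γ
          exact (h2.const_mul _).sub_const _
        have h2 := (h1.fun_pow 2).fun_neg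
        have h3 : HasDerivAt (fun s => w (s, q.2)) _ q.1 := h2
        rw [h3.deriv, hZdef, hA]
        simp only [Nat.cast_ofNat]
        ring
      have hF : D.F (w q) w q = dt w q + D.L w q + G (w q) := by
        unfold EqData.F
        rw [hg]
      have hwq : w q = -(Z ^ 2) := by
        rw [hZdef, hA]
      rw [hF, hL, hdt, hwq]
      have h1 := abs_le.1 (abs_LU_le h hqT hqR)
      have h2 := SU_le h hqT hqR
      have h3 := SU_nonneg D a q
      rw [← hCdef] at h1 h2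
      have h4 := G_lower hZ0.le
      rw [← hZdef]
      have h6 : 2 * γ * Z * (-C) ≤ 2 * γ * Z * LU D a q :=
        mul_le_mul_of_nonneg_left h1.1 (by positivity)
      have h7 : γ ^ 2 * SU D a q ≤ γ ^ 2 * C := mul_le_mul_of_nonneg_left h2 (sq_nonneg γ)
      have h8 : 0 ≤ γ * C * (2 * Z - γ) := by
        have : 0 ≤ 2 * Z - γ := by linarith
        positivity
      nlinarith)
  have := hmain t ht x (by
    rw [hQ]
    exact ⟨fun i => ⟨(hηx i).1.le, (hηx i).2.le⟩, OR_subset a k ς hx⟩)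
  exact this.le

end Barriers

section Positivity

variable {n d : ℕ}

/-- A lower bound on the open region extends to the closed region. -/
theorem extend_box {c T : ℝ} {v : ℝ × E n → ℝ} (hv : ContinuousOn v (Icc c T ×ˢ univ))
    (a : Fin n → ℝ) (k : Fin n) {ς : ℝ} (hς : ς = 1 ∨ ς = -1) {t m : ℝ} (ht : t ∈ Icc c T)
    (h : ∀ x ∈ OR a k ς, m ≤ v (t, x)) :
    ∀ x ∈ CR a k ς, m ≤ v (t, x) := by
  intro x hx
  have hpi := Real.pi_pos
  obtain ⟨y, hy⟩ : ∃ y : E n, y = WithLp.toLp 2 (fun i => a i + Real.pi / 2 - ς * (Real.pi / 4)) :=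
    ⟨_, rfl⟩
  have hyi : ∀ i, y i = a i + Real.pi / 2 - ς * (Real.pi / 4) := fun i => by rw [hy]
  have hyi2 : ∀ i, a i < y i ∧ y i < a i + Real.pi := by
    intro i
    rw [hyi]
    rcases hς with h1 | h1 <;> rw [h1] <;> constructor <;> linarith
  have hc : ContinuousOn (fun r : ℝ => v (t, x + r • (y - x))) univ := by
    have h1 : ContinuousOn (fun r : ℝ => ((t, x + r • (y - x)) : ℝ × E n)) univ := by fun_prop
    exact hv.comp h1 (fun r _ => ⟨ht, mem_univ _⟩)
  have h1 : Tendsto (fun r : ℝ => v (t, x + r • (y - x))) (𝓝[>] 0) (𝓝 (v (t, x))) := by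
    have h2 := (continuousOn_univ.1 hc).tendsto 0
    have h3 : x + (0:ℝ) • (y - x) = x := by simp
    rw [h3] at h2
    exact h2.mono_left nhdsWithin_le_nhds
  refine ge_of_tendsto h1 ?_
  filter_upwards [Ioo_mem_nhdsGT (zero_lt_one' ℝ)] with r hr
  apply h
  have h4 : ∀ i, (x + r • (y - x)) i = (1 - r) * x i + r * y i := by
    intro i
    rw [PiLp.add_apply, PiLp.smul_apply, PiLp.sub_apply, smul_eq_mul]
    ring
  constructor
  · intro i
    rw [h4]
    have h5 := hx.1 i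
    have h6 : (1 - r) * a i ≤ (1 - r) * x i := mul_le_mul_of_nonneg_left h5.1 (by linarith [hr.2])
    have h7 : (1 - r) * x i ≤ (1 - r) * (a i + Real.pi) :=
      mul_le_mul_of_nonneg_left h5.2 (by linarith [hr.2])
    have h8 : r * a i < r * y i := mul_lt_mul_of_pos_left (hyi2 i).1 hr.1
    have h9 : r * y i < r * (a i + Real.pi) := mul_lt_mul_of_pos_left (hyi2 i).2 hr.1
    constructor <;> linarith
  · rw [h4, hyi]
    have h5 := hx.2
    have h6 : ς * ς = 1 := by rcases hς with h1 | h1 <;> rw [h1] <;> norm_num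
    have h7 : ς * ((1 - r) * x k + r * (a k + Real.pi / 2 - ς * (Real.pi / 4)) - a k - Real.pi / 2) =
        (1 - r) * (ς * (x k - a k - Real.pi / 2)) - r * (ς * ς) * (Real.pi / 4) := by ring
    rw [h7, h6]
    have h8 : (1 - r) * (ς * (x k - a k - Real.pi / 2)) ≤ 0 :=
      mul_nonpos_of_nonneg_of_nonpos (by linarith [hr.2]) h5
    have h9 : 0 < r * 1 * (Real.pi / 4) := by
      have := hr.1
      positivity
    linarith

/-- The lower bound `v ≥ -(T - t)²`. -/
theorem lower {D : EqData n d} (hg : ∀ t x y z, D.g t x y z = G y) {K : ℝ} {a : Fin n → ℝ}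
    {s₀ : ℝ} {k : Fin n} {ς : ℝ} (h : Faces D K s₀ a k ς) {c : ℝ} (hc0 : s₀ ≤ c) (hcT : c < D.T)
    {v : ℝ × E n → ℝ} (hv : SuperOn D a k ς c v) {t : ℝ} (ht : t ∈ Ioc c D.T) :
    ∀ x ∈ CR a k ς, -((D.T - t) ^ 2) ≤ v (t, x) := by
  apply extend_box hv.cont a k h.sign ⟨ht.1.le, ht.2⟩
  intro x hx
  have h1 : Tendsto (fun γ : ℝ =>
      -(((1 + 2 * γ * CC n K) * (D.T - t + γ) - γ * U a x) ^ 2)) (𝓝[>] 0)
      (𝓝 (-((D.T - t) ^ 2))) := by
    have h2 : Continuous (fun γ : ℝ =>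
        -(((1 + 2 * γ * CC n K) * (D.T - t + γ) - γ * U a x) ^ 2)) := by fun_prop
    have h3 := h2.tendsto 0
    have h4 : -(((1 + 2 * 0 * CC n K) * (D.T - t + 0) - 0 * U a x) ^ 2) = -((D.T - t) ^ 2) := by
      ring
    rw [h4] at h3
    exact h3.mono_left nhdsWithin_le_nhds
  refine le_of_tendsto h1 ?_
  filter_upwards [self_mem_nhdsWithin] with γ hγ
  exact lower_pre hg h hc0 hcT hv hγ ht hx

/-- The product of the sines. -/
noncomputable def P (a : Fin n → ℝ) (x : E n) : ℝ := ∏ i, Real.sin (x i - a i)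

theorem P_sq {a : Fin n → ℝ} {x : E n} (hx : x ∈ OBox a) : P a x ^ 2 = Real.exp (2 * U a x) := by
  unfold P U
  rw [mul_comm, Real.exp_mul, Real.exp_sum]
  rw [Finset.prod_congr rfl fun i _ => Real.exp_log (sin_pos_of_mem hx i)]
  norm_cast

theorem P_nonneg {a : Fin n → ℝ} {x : E n} (hx : x ∈ CBox a) : 0 ≤ P a x :=
  Finset.prod_nonneg fun i _ => sin_nonneg_of_mem hx i

theorem P_le {a : Fin n → ℝ} {x : E n} (hx : x ∈ CBox a) (i : Fin n) :
    P a x ≤ Real.sin (x i - a i) := by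
  unfold P
  rw [← Finset.mul_prod_erase _ _ (Finset.mem_univ i)]
  have : ∏ j ∈ Finset.univ.erase i, Real.sin (x j - a j) ≤ 1 :=
    Finset.prod_le_one (fun j _ => sin_nonneg_of_mem hx j) (fun j _ => Real.sin_le_one _)
  calc Real.sin (x i - a i) * ∏ j ∈ Finset.univ.erase i, Real.sin (x j - a j)
      ≤ Real.sin (x i - a i) * 1 := mul_le_mul_of_nonneg_left this (sin_nonneg_of_mem hx i)
    _ = _ := mul_one _

theorem P_eq_zero {a : Fin n → ℝ} {x : E n} (hx : x ∈ CBox a) (hx' : x ∉ OBox a) : P a x = 0 := by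
  have h1 : ∃ i, ¬ (a i < x i ∧ x i < a i + Real.pi) := by
    by_contra h
    push Not at h
    exact hx' fun i => h i
  obtain ⟨i, hi⟩ := h1
  have h2 : x i = a i ∨ x i = a i + Real.pi := by
    by_contra h
    push Not at h
    exact hi ⟨lt_of_le_of_ne (hx i).1 (Ne.symm h.1), lt_of_le_of_ne (hx i).2 h.2⟩
  apply Finset.prod_eq_zero (Finset.mem_univ i)
  rcases h2 with h2 | h2
  · rw [h2, sub_self, Real.sin_zero]
  · rw [h2, add_sub_cancel_left, Real.sin_pi]

theorem contDiff_P (a : Fin n → ℝ) : ContDiff ℝ ((⊤ : ℕ∞) : WithTop ℕ∞) (P a) := by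
  unfold P
  refine contDiff_prod fun i _ => ?_
  exact Real.contDiff_sin.comp
    (((EuclideanSpace.proj i : E n →L[ℝ] ℝ).contDiff).sub contDiff_const)

/-- Second barrier. -/
theorem upper_pre {D : EqData n d} (hg : ∀ t x y z, D.g t x y z = G y) {K : ℝ} {a : Fin n → ℝ}
    {s₀ : ℝ} {k : Fin n} {ς : ℝ} (h : Faces D K s₀ a k ς) {c : ℝ} (hc0 : s₀ ≤ c) (hcT : c < D.T)
    {v : ℝ × E n → ℝ} (hv : SuperOn D a k ς c v) {δ : ℝ} (hδ : 0 < δ)
    (hsmall : 10 * CC n K * (D.T - c + δ) ≤ 1) {t : ℝ} (ht : t ∈ Ioc c D.T)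
    {x : E n} (hx : x ∈ CR a k ς) :
    (D.T - t + δ) ^ 2 * ((P a x ^ 2 - (δ * (D.T - t + δ)) ^ 2) /
      (P a x ^ 2 + (δ * (D.T - t + δ)) ^ 2)) ≤ v (t, x) := by
  have hC := one_le_CC n h.K_pos
  obtain ⟨C, hCdef⟩ : ∃ C, C = CC n K := ⟨_, rfl⟩
  rw [← hCdef] at hC hsmall
  let w : ℝ × E n → ℝ := fun q => (D.T - q.1 + δ) ^ 2 *
    ((P a q.2 ^ 2 - (δ * (D.T - q.1 + δ)) ^ 2) / (P a q.2 ^ 2 + (δ * (D.T - q.1 + δ)) ^ 2))
  have hden : ∀ q : ℝ × E n, q.1 ≤ D.T → 0 < P a q.2 ^ 2 + (δ * (D.T - q.1 + δ)) ^ 2 := by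
    intro q hq
    have h1 : 0 < D.T - q.1 + δ := by linarith
    positivity
  have hws : ContDiffOn ℝ ((⊤ : ℕ∞) : WithTop ℕ∞) w (Iic D.T ×ˢ univ) := by
    have h1 : ContDiff ℝ ((⊤ : ℕ∞) : WithTop ℕ∞) (fun q : ℝ × E n => D.T - q.1 + δ) :=
      (contDiff_const.sub contDiff_fst).add contDiff_const
    have h2 : ContDiff ℝ ((⊤ : ℕ∞) : WithTop ℕ∞) (fun q : ℝ × E n => P a q.2) :=
      (contDiff_P a).comp contDiff_snd
    have h3 := (contDiff_const (c := δ)).mul h1
    exact ((h1.pow 2).contDiffOn).mul (((h2.pow 2).sub (h3.pow 2)).contDiffOn.div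
      ((h2.pow 2).add (h3.pow 2)).contDiffOn (fun q hq => (hden q hq.1).ne'))
  have hsub : Icc c D.T ×ˢ CR a k ς ⊆ Iic D.T ×ˢ (univ : Set (E n)) :=
    prod_mono (fun s hs => hs.2) (subset_univ _)
  have hmain := contact D hg (c := c) (T := D.T) (Q := CR a k ς) (O := OR a k ς) (v := v) (w := w)
    (isCompact_CR a k ς) (isOpen_OR a k ς) (OR_subset a k ς)
    (hv.cont.mono (prod_mono (le_refl _) (subset_univ _)))
    (hws.continuousOn.mono hsub)
    (by
      intro y hy
      have h1 := hv.term y hy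
      have h2 := P_nonneg hy.1
      have h3 := P_le hy.1 k
      have h4 : w (D.T, y) < v (D.T, y) := by
        have h5 : w (D.T, y) ≤ P a y ∧ (w (D.T, y) < P a y) := by
          have h6 : w (D.T, y) < P a y := by
            show (D.T - D.T + δ) ^ 2 * ((P a y ^ 2 - (δ * (D.T - D.T + δ)) ^ 2) /
              (P a y ^ 2 + (δ * (D.T - D.T + δ)) ^ 2)) < P a y
            rw [sub_self, zero_add, ← mul_div_assoc, div_lt_iff₀ (by positivity)]
            have h7 : 0 < (P a y) * ((P a y - δ ^ 2 / 2) ^ 2 + 3 / 4 * δ ^ 4) + δ ^ 6 := by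
              positivity
            nlinarith
          exact ⟨h6.le, h6⟩
        linarith [h5.2]
      exact h4)
    (by
      intro s hs y hy hyO
      have hε1 : D.T - s + δ ≤ 1 / 10 := by
        have h1 : 0 ≤ D.T - s + δ := by linarith [hs.2]
        have h2 : D.T - s + δ ≤ D.T - c + δ := by linarith [hs.1]
        have h3 : D.T - s + δ ≤ C * (D.T - s + δ) := by nlinarith
        have h4 : C * (D.T - s + δ) ≤ C * (D.T - c + δ) :=
          mul_le_mul_of_nonneg_left h2 (by linarith)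
        linarith
      by_cases hfar : y k - a k - Real.pi / 2 = 0
      · have h1 := hv.far s ⟨hs.1.le, hs.2⟩ y hy hfar
        have h2 : w (s, y) ≤ (D.T - s + δ) ^ 2 := by
          show (D.T - s + δ) ^ 2 * ((P a y ^ 2 - (δ * (D.T - s + δ)) ^ 2) /
              (P a y ^ 2 + (δ * (D.T - s + δ)) ^ 2)) ≤ _
          have h3 : (P a y ^ 2 - (δ * (D.T - s + δ)) ^ 2) /
              (P a y ^ 2 + (δ * (D.T - s + δ)) ^ 2) ≤ 1 := by
            rw [div_le_one (hden (s, y) hs.2)]
            have := sq_nonneg (δ * (D.T - s + δ))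
            linarith
          calc (D.T - s + δ) ^ 2 * ((P a y ^ 2 - (δ * (D.T - s + δ)) ^ 2) /
              (P a y ^ 2 + (δ * (D.T - s + δ)) ^ 2)) ≤ (D.T - s + δ) ^ 2 * 1 :=
                mul_le_mul_of_nonneg_left h3 (sq_nonneg _)
            _ = _ := mul_one _
        have h3 : (D.T - s + δ) ^ 2 ≤ (1 / 10) ^ 2 :=
          pow_le_pow_left₀ (by linarith [hs.2]) hε1 2
        norm_num at h3
        linarith
      have hyB : y ∉ OBox a := by
        intro h1
        apply hyO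
        refine ⟨h1, ?_⟩
        rcases lt_or_eq_of_le hy.2 with h2 | h2
        · exact h2
        · exfalso
          apply hfar
          rcases mul_eq_zero.1 h2 with h3 | h3
          · rcases h.sign with h4 | h4 <;> rw [h4] at h3 <;> norm_num at h3
          · exact h3
      have h1 := lower hg h hc0 hcT hv hs y hy
      have h2 := P_eq_zero hy.1 hyB
      have h3 : w (s, y) = -((D.T - s + δ) ^ 2) := by
        show (D.T - s + δ) ^ 2 * ((P a y ^ 2 - (δ * (D.T - s + δ)) ^ 2) /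
              (P a y ^ 2 + (δ * (D.T - s + δ)) ^ 2)) = _
        rw [h2]
        have h4 : 0 < δ * (D.T - s + δ) := mul_pos hδ (by linarith [hs.2])
        have h5 : ((0:ℝ) ^ 2 - (δ * (D.T - s + δ)) ^ 2) /
            ((0:ℝ) ^ 2 + (δ * (D.T - s + δ)) ^ 2) = -1 := by
          rw [div_eq_iff (by positivity)]
          ring
        rw [h5]
        ring
      rw [h3]
      have h4 : 0 ≤ D.T - s := by linarith [hs.2]
      nlinarith)
    (fun φ hφ q hq _ hloc => hv.sup φ hφ q hq hloc)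
    (hws.mono (prod_mono (fun s hs => hs.2.le) (subset_univ _)))
    (by
      intro q hq1 hqR
      have hqB : q.2 ∈ OBox a := hqR.1
      have hqT : q.1 ∈ Icc s₀ D.T := ⟨by linarith [hq1.1], hq1.2.le⟩
      obtain ⟨ε, hεdef⟩ : ∃ ε, ε = D.T - q.1 + δ := ⟨_, rfl⟩
      have hε : 0 < ε := by rw [hεdef]; linarith [hq1.2]
      obtain ⟨κ, hκdef⟩ : ∃ κ, κ = (δ * ε) ^ 2 := ⟨_, rfl⟩
      have hκ : 0 < κ := by rw [hκdef]; positivity
      obtain ⟨p, hp⟩ : ∃ p, p = Real.exp (2 * U a q.2) := ⟨_, rfl⟩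
      have hp0 : 0 < p := by rw [hp]; exact Real.exp_pos _
      obtain ⟨e, he⟩ : ∃ e, e = (κ - p) / (κ + p) := ⟨_, rfl⟩
      have he1 : -1 < e := by
        rw [he, lt_div_iff₀ (by positivity)]
        linarith
      have he2 : e < 1 := by
        rw [he, div_lt_one (by positivity)]
        linarith
      have he3 : 1 - e ^ 2 = 4 * κ * p / (κ + p) ^ 2 := by
        rw [he]
        field_simp
        ring
      have hL := L_comp_ev D (a := a) (q := q) hqB (w := w)
        (f := fun s => ε ^ 2 * ((Real.exp (2 * s) - κ) / (Real.exp (2 * s) + κ)))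
        (f1 := fun s => ε ^ 2 * (4 * κ * Real.exp (2 * s) / (Real.exp (2 * s) + κ) ^ 2))
        (f2 := ε ^ 2 * (8 * κ * p * (κ - p) / (p + κ) ^ 3))
        (by
          intro y hy
          show (D.T - q.1 + δ) ^ 2 * ((P a y ^ 2 - (δ * (D.T - q.1 + δ)) ^ 2) /
            (P a y ^ 2 + (δ * (D.T - q.1 + δ)) ^ 2)) = _
          rw [P_sq hy, ← hεdef, ← hκdef])
        (by
          have h1 : ContDiff ℝ ((⊤ : ℕ∞) : WithTop ℕ∞) (fun s : ℝ => Real.exp (2 * s)) :=
            Real.contDiff_exp.comp (contDiff_const.mul contDiff_id)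
          exact contDiff_const.mul ((h1.sub contDiff_const).div (h1.add contDiff_const)
            (fun s => by positivity)))
        (by
          intro s
          have h1 : HasDerivAt (fun s : ℝ => Real.exp (2 * s)) (Real.exp (2 * s) * (2 * 1)) s :=
            ((hasDerivAt_id s).const_mul 2).exp
          have h0 : Real.exp (2 * s) + κ ≠ 0 := by positivity
          have h2 := ((h1.sub_const κ).fun_div (h1.add_const κ) h0).const_mul (ε ^ 2)
          refine h2.congr_deriv ?_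
          field_simp
          ring)
        (by
          have h1 : HasDerivAt (fun s : ℝ => Real.exp (2 * s))
              (Real.exp (2 * U a q.2) * (2 * 1)) (U a q.2) :=
            ((hasDerivAt_id (U a q.2)).const_mul 2).exp
          rw [← hp] at h1
          have h0 : (Real.exp (2 * U a q.2) + κ) ^ 2 ≠ 0 := by positivity
          have h2 := ((h1.const_mul (4 * κ)).fun_div ((h1.add_const κ).fun_pow 2) h0).const_mul
            (ε ^ 2)
          refine h2.congr_deriv ?_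
          rw [← hp]
          simp only [Nat.cast_ofNat]
          field_simp
          ring)
      have hf1 : ε ^ 2 * (4 * κ * Real.exp (2 * U a q.2) / (Real.exp (2 * U a q.2) + κ) ^ 2) =
          ε ^ 2 * (1 - e ^ 2) := by
        rw [he3, ← hp, add_comm p κ]
      have hf2 : ε ^ 2 * (8 * κ * p * (κ - p) / (p + κ) ^ 3) = 2 * (ε ^ 2 * (1 - e ^ 2) * e) := by
        rw [he3, he]
        field_simp
        ring
      have hdt : dt w q = 2 * ε * e + ε * (1 - e ^ 2) := by
        unfold dt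
        have h1 : HasDerivAt (fun s : ℝ => D.T - s + δ) (-1) q.1 :=
          ((hasDerivAt_id q.1).const_sub D.T).add_const δ
        have h2 := (h1.const_mul δ).fun_pow 2
        have h3 : HasDerivAt (fun s : ℝ => (D.T - s + δ) ^ 2) _ q.1 := h1.fun_pow 2
        have h0 : P a q.2 ^ 2 + (δ * (D.T - q.1 + δ)) ^ 2 ≠ 0 := (hden q hq1.2.le).ne'
        have h4 : HasDerivAt (fun s => w (s, q.2)) _ q.1 :=
          h3.mul ((h2.const_sub (P a q.2 ^ 2)).fun_div (h2.const_add (P a q.2 ^ 2)) h0)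
        rw [h4.deriv, P_sq hqB, ← hεdef, ← hκdef, ← hp]
        simp only [Nat.cast_ofNat]
        rw [he3, he]
        rw [hκdef]
        have h5 : (δ * ε) ^ 2 + p ≠ 0 := by positivity
        have h6 : p + (δ * ε) ^ 2 ≠ 0 := by positivity
        field_simp
        ring
      have hF : D.F (w q) w q = dt w q + D.L w q + G (w q) := by
        unfold EqData.F
        rw [hg]
      have hwq : w q = -(ε ^ 2 * e) := by
        show (D.T - q.1 + δ) ^ 2 * ((P a q.2 ^ 2 - (δ * (D.T - q.1 + δ)) ^ 2) /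
            (P a q.2 ^ 2 + (δ * (D.T - q.1 + δ)) ^ 2)) = _
        rw [P_sq hqB, ← hεdef, ← hκdef, ← hp, he]
        field_simp
        ring
      have h1 := abs_LU_le h hqT hqR
      have h2 := SU_le h hqT hqR
      have h3 := SU_nonneg D a q
      rw [← hCdef] at h1 h2
      have hεC : 10 * C * ε ≤ 1 := by
        have h4 : ε ≤ D.T - c + δ := by rw [hεdef]; linarith [hq1.1]
        have h5 : 10 * C * ε ≤ 10 * C * (D.T - c + δ) :=
          mul_le_mul_of_nonneg_left h4 (by linarith)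
        linarith
      have hfin := barrier_ineq hε hC hεC he1 he2 h1 h3 h2
      rw [hF, hL, hdt, hwq, hf1, hf2]
      linarith)
  exact (hmain t ht x hx).le

end Positivity

section Main

variable {n d : ℕ}

/-- Near the terminal time a supersolution with terminal value at least `sin (x_k - a_k)` on the
region is at least `(T - t)²` there. -/
theorem upper {D : EqData n d} (hg : ∀ t x y z, D.g t x y z = G y) {K : ℝ} {a : Fin n → ℝ}
    {s₀ : ℝ} {k : Fin n} {ς : ℝ} (h : Faces D K s₀ a k ς) {c : ℝ} (hc0 : s₀ ≤ c) (hcT : c < D.T)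
    {v : ℝ × E n → ℝ} (hv : SuperOn D a k ς c v)
    (hsmall : 20 * CC n K * (D.T - c) ≤ 1) {t : ℝ} (ht : t ∈ Ioo c D.T) :
    ∀ x ∈ CR a k ς, (D.T - t) ^ 2 ≤ v (t, x) := by
  apply extend_box hv.cont a k h.sign ⟨ht.1.le, ht.2.le⟩
  intro x hx
  have hC := one_le_CC n h.K_pos
  have hP : 0 < P a x := Finset.prod_pos fun i _ => sin_pos_of_mem hx.1 i
  have h1 : Tendsto (fun δ : ℝ => (D.T - t + δ) ^ 2 * ((P a x ^ 2 - (δ * (D.T - t + δ)) ^ 2) /
      (P a x ^ 2 + (δ * (D.T - t + δ)) ^ 2))) (𝓝[>] 0) (𝓝 ((D.T - t) ^ 2)) := by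
    have h2 : Continuous (fun δ : ℝ => (D.T - t + δ) ^ 2 * ((P a x ^ 2 - (δ * (D.T - t + δ)) ^ 2) /
        (P a x ^ 2 + (δ * (D.T - t + δ)) ^ 2))) := by
      refine Continuous.mul (by fun_prop) (Continuous.div (by fun_prop) (by fun_prop) ?_)
      intro δ
      positivity
    have h3 := h2.tendsto 0
    have h4 : (D.T - t + 0) ^ 2 * ((P a x ^ 2 - (0 * (D.T - t + 0)) ^ 2) /
        (P a x ^ 2 + (0 * (D.T - t + 0)) ^ 2)) = (D.T - t) ^ 2 := by
      have h5 : P a x ^ 2 ≠ 0 := by positivity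
      rw [zero_mul, add_zero]
      norm_num
      rw [div_self h5, mul_one]
    rw [h4] at h3
    exact h3.mono_left nhdsWithin_le_nhds
  refine le_of_tendsto h1 ?_
  have h5 : 0 < 1 / (20 * CC n K) := by positivity
  filter_upwards [Ioo_mem_nhdsGT h5] with δ hδ
  refine upper_pre hg h hc0 hcT hv hδ.1 ?_ ⟨ht.1, ht.2.le⟩ (OR_subset a k ς hx)
  have h6 : 10 * CC n K * δ ≤ 10 * CC n K * (1 / (20 * CC n K)) :=
    mul_le_mul_of_nonneg_left hδ.2.le (by positivity)
  have h7 : 10 * CC n K * (1 / (20 * CC n K)) = 1 / 2 := by field_simp; norm_num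
  nlinarith

/-- A continuous function that exceeds `m` on a compact set at the time `T` exceeds `m` on it shortly
before `T`. -/
theorem exists_time {c T m : ℝ} (hcT : c < T) {v : ℝ × E n → ℝ} {F : Set (E n)} (hF : IsCompact F)
    (hv : ContinuousOn v (Icc c T ×ˢ F)) (h : ∀ x ∈ F, m < v (T, x)) :
    ∃ c' < T, ∀ t ∈ Icc c T, c' ≤ t → ∀ x ∈ F, m ≤ v (t, x) := by
  have hSc : IsCompact ((Icc c T ×ˢ F) ∩ {q | v q ≤ m}) := by
    have h1 : IsCompact (Icc c T ×ˢ F) := isCompact_Icc.prod hF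
    have h3 := hv.preimage_isClosed_of_isClosed h1.isClosed isClosed_Iic (t := Iic m)
    exact h1.of_isClosed_subset h3 inter_subset_left
  by_cases hne : ((Icc c T ×ˢ F) ∩ {q | v q ≤ m}).Nonempty
  · obtain ⟨q1, hq1, hmax⟩ := hSc.exists_isMaxOn hne continuous_fst.continuousOn
    have h1 : q1.1 < T := by
      rcases lt_or_eq_of_le hq1.1.1.2 with h2 | h2
      · exact h2
      · exfalso
        have h3 := h q1.2 hq1.1.2
        have h4 : v q1 ≤ m := hq1.2
        have h5 : q1 = (T, q1.2) := by rw [← h2]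
        rw [h5] at h4
        exact absurd h3 (not_lt.2 h4)
    refine ⟨(q1.1 + T) / 2, by linarith, ?_⟩
    intro t ht ht' x hx
    by_contra hcon
    push Not at hcon
    have h2 : t ≤ q1.1 := hmax (show ((t, x) : ℝ × E n) ∈ (Icc c T ×ˢ F) ∩ {q | v q ≤ m} from
      ⟨⟨ht, hx⟩, hcon.le⟩)
    linarith
  · refine ⟨c, hcT, ?_⟩
    intro t ht _ x hx
    by_contra hcon
    push Not at hcon
    exact hne ⟨(t, x), ⟨ht, hx⟩, hcon.le⟩

theorem F_neg (D : EqData n d) (hg : ∀ t x y z, D.g t x y z = G y) (y : ℝ) (φ : ℝ × E n → ℝ)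
    (q : ℝ × E n) : D.F (-y) φ q = -D.F y (fun r => -φ r) q := by
  have h1 : dt (fun r => -φ r) q = -dt φ q := by
    unfold dt
    exact deriv.fun_neg
  have h2 : gradX (fun r => -φ r) q = -gradX φ q := by
    unfold gradX gradient
    rw [fderiv_fun_neg, map_neg]
  have h3 : hessX (fun r => -φ r) q = -hessX φ q := by
    unfold hessX
    ext i j
    rw [Matrix.neg_apply, Matrix.of_apply, Matrix.of_apply, iteratedFDeriv_two_apply,
      iteratedFDeriv_two_apply]
    have h4 : fderiv ℝ (fun x => -φ (q.1, x)) = fun x => -fderiv ℝ (fun x => φ (q.1, x)) x := by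
      ext1 x
      rw [fderiv_fun_neg]
    rw [h4, fderiv_fun_neg]
    simp
  have h5 : D.L (fun r => -φ r) q = -D.L φ q := by
    unfold EqData.L
    rw [h2, h3, inner_neg_right, Matrix.mul_neg, Matrix.trace_neg]
    ring
  unfold EqData.F
  rw [hg, hg, h1, h5, G_neg]
  ring

theorem no_solution (n d : ℕ) (hn : 0 < n) (T : ℝ) {K s : ℝ} (hK : 0 < K)
    (hs : 0 ≤ s) (hsT : s < T) (z : Fin n → ℝ)
    (b : ℝ → E n → E n) (σ : ℝ → E n → Matrix (Fin n) (Fin d) ℝ)
    (hlip : ∀ t ∈ Icc 0 T, ∀ x x' : E n, ‖b t x - b t x'‖ + frob (σ t x - σ t x') ≤ K * ‖x - x'‖)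
    (hinv : Invariant s T z b σ) {t₁ : ℝ} (ht₁ : t₁ < T) (u : ℝ × E n → ℝ)
    (hu : (data n d hn T z b σ).IsViscositySolution t₁ u) : False := by
  obtain ⟨D, hD⟩ : ∃ D : EqData n d, D = data n d hn T z b σ := ⟨_, rfl⟩
  have hDT : D.T = T := by rw [hD]; rfl
  have hDg : ∀ t x y z, D.g t x y z = G y := by
    intro t x y z
    rw [hD]
    rfl
  rw [← hD] at hu
  have hpi := Real.pi_pos
  obtain ⟨k, hk⟩ : ∃ k : Fin n, k = ⟨0, hn⟩ := ⟨_, rfl⟩
  have hk0 : ∀ i : Fin n, (i : ℕ) = 0 ↔ i = k := by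
    intro i
    rw [hk]
    constructor
    · intro h
      exact Fin.ext h
    · intro h
      rw [h]
  -- the two regions
  have hfaces : ∀ (a : Fin n → ℝ) (ς : ℝ), (ς = 1 ∨ ς = -1) → CR a k ς ⊆ Box z →
      (∀ i, Real.sin (a i - z i) = 0) → Faces D K s a k ς := by
    intro a ς hς hbox ha
    refine ⟨hK, hς, hs, ?_, ?_⟩
    · rw [hD]
      exact hlip
    · intro t ht x hx i hi
      have h1 : Real.sin (x i - z i) = 0 := by
        rcases hi with hi | hi
        · rw [hi]; exact ha i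
        · rw [hi]
          have : a i + Real.pi - z i = (a i - z i) + Real.pi := by ring
          rw [this, Real.sin_add_pi, ha i, neg_zero]
      rw [hD] at ht ⊢
      exact hinv t ht x (hbox hx) i h1
  have hC := one_le_CC n hK
  have hterm : ∀ x, u (D.T, x) = Real.sin (x k - z k) := by
    intro x
    rw [hu.terminal, hD, hk]
    rfl
  -- the corner of the second region
  obtain ⟨a, ha⟩ : ∃ a : Fin n → ℝ, a = fun i => if i = k then z i - Real.pi else z i := ⟨_, rfl⟩
  have hak : a k = z k - Real.pi := by rw [ha]; simp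
  have hai : ∀ i, i ≠ k → a i = z i := by
    intro i hi
    rw [ha]
    simp [hi]
  have hboxp : CR z k 1 ⊆ Box z := by
    intro x hx i
    have h1 := hx.1 i
    by_cases hi : (i : ℕ) = 0
    · rw [if_pos hi]
      have hik := (hk0 i).1 hi
      have h2 := hx.2
      rw [← hik] at h2
      rw [abs_le]
      constructor <;> linarith [h1.1]
    · rw [if_neg hi]
      constructor <;> linarith [h1.1, h1.2]
  have hboxn : CR a k (-1) ⊆ Box z := by
    intro x hx i
    have h1 := hx.1 i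
    by_cases hi : (i : ℕ) = 0
    · rw [if_pos hi]
      have hik := (hk0 i).1 hi
      have h2 := hx.2
      rw [← hik] at h2 hak
      rw [hak] at h1 h2
      rw [abs_le]
      constructor <;> linarith [h1.2]
    · rw [if_neg hi]
      rw [hai i (fun h => hi ((hk0 i).2 h))] at h1
      constructor <;> linarith [h1.1, h1.2]
  have hfp := hfaces z 1 (Or.inl rfl) hboxp (fun i => by rw [sub_self, Real.sin_zero])
  have hfn := hfaces a (-1) (Or.inr rfl) hboxn (fun i => by
    by_cases hi : i = k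
    · rw [hi, hak]
      have : z k - Real.pi - z k = -Real.pi := by ring
      rw [this, Real.sin_neg, Real.sin_pi, neg_zero]
    · rw [hai i hi, sub_self, Real.sin_zero])
  have hcontT : ContinuousOn u (Icc t₁ D.T ×ˢ univ) := hu.cont
  have ht₁' : t₁ < D.T := by rw [hDT]; exact ht₁
  have hfarc : ∀ (a : Fin n → ℝ) (ς : ℝ),
      IsCompact {x : E n | x ∈ CR a k ς ∧ x k - a k - Real.pi / 2 = 0} := by
    intro a ς
    have hc : Continuous (fun x : E n => x k) := (EuclideanSpace.proj k : E n →L[ℝ] ℝ).continuous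
    have hc2 : Continuous (fun x : E n => x k - a k - Real.pi / 2) :=
      (hc.sub continuous_const).sub continuous_const
    exact (isCompact_CR a k ς).inter_right (isClosed_eq hc2 continuous_const)
  obtain ⟨c1, hc1, hc1'⟩ := exists_time (m := 1 / 2) (v := u) ht₁' (hfarc z 1)
    (hcontT.mono (prod_mono (le_refl _) (subset_univ _))) (by
      intro x hx
      rw [hterm]
      have h1 : x k - z k = Real.pi / 2 := by linarith [hx.2]
      rw [h1, Real.sin_pi_div_two]
      norm_num)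
  obtain ⟨c2, hc2, hc2'⟩ := exists_time (m := 1 / 2) (v := fun q => -u q) ht₁' (hfarc a (-1))
    (hcontT.neg.mono (prod_mono (le_refl _) (subset_univ _))) (by
      intro x hx
      rw [hterm]
      have h1 : x k - z k = -(Real.pi / 2) := by
        have := hx.2
        rw [hak] at this
        linarith
      rw [h1, Real.sin_neg, Real.sin_pi_div_two]
      norm_num)
  -- the starting time
  obtain ⟨c, hc⟩ : ∃ c, c = max (max (max c1 c2) (max t₁ s)) (D.T - 1 / (20 * CC n K)) := ⟨_, rfl⟩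
  have hcc1 : c1 ≤ c := by
    rw [hc]; exact ((le_max_left _ _).trans (le_max_left _ _)).trans (le_max_left _ _)
  have hcc2 : c2 ≤ c := by
    rw [hc]; exact ((le_max_right _ _).trans (le_max_left _ _)).trans (le_max_left _ _)
  have hct : t₁ ≤ c := by
    rw [hc]; exact ((le_max_left _ _).trans (le_max_right _ _)).trans (le_max_left _ _)
  have hcs : s ≤ c := by
    rw [hc]; exact ((le_max_right _ _).trans (le_max_right _ _)).trans (le_max_left _ _)
  have hc3 : D.T - 1 / (20 * CC n K) ≤ c := by rw [hc]; exact le_max_right _ _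
  have hcT : c < D.T := by
    rw [hc]
    refine max_lt (max_lt (max_lt hc1 hc2) (max_lt ht₁' (by rw [hDT]; exact hsT))) ?_
    have : 0 < 1 / (20 * CC n K) := by positivity
    linarith
  have hsmall : 20 * CC n K * (D.T - c) ≤ 1 := by
    have h1 : 20 * CC n K * (D.T - c) ≤ 20 * CC n K * (1 / (20 * CC n K)) :=
      mul_le_mul_of_nonneg_left (by linarith) (by positivity)
    have h2 : 20 * CC n K * (1 / (20 * CC n K)) = 1 := by field_simp
    linarith
  have hcont : ContinuousOn u (Icc c D.T ×ˢ univ) :=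
    hcontT.mono (prod_mono (Icc_subset_Icc_left hct) (le_refl _))
  obtain ⟨t, ht⟩ : ∃ t, t = (c + D.T) / 2 := ⟨_, rfl⟩
  have htI : t ∈ Ioo c D.T := by
    rw [ht]
    exact ⟨by linarith, by linarith⟩
  have hsub : Ioo c D.T ⊆ Ioo t₁ D.T := Ioo_subset_Ioo_left hct
  obtain ⟨x, hx⟩ : ∃ x : E n, x = WithLp.toLp 2 z := ⟨_, rfl⟩
  have hxi : ∀ i, x i = z i := fun i => by rw [hx]
  -- the region on the positive side
  have hpos : (D.T - t) ^ 2 ≤ u (t, x) := by
    refine upper hDg hfp hcs hcT (v := u) ⟨hcont, ?_, ?_, ?_⟩ hsmall htI x ?_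
    · exact fun φ hφ q hq hloc => hu.super φ hφ q (hsub hq) hloc
    · intro y _
      rw [hterm]
    · intro r hr y hy hfar
      exact hc1' r ⟨hct.trans hr.1, hr.2⟩ (hcc1.trans hr.1) y ⟨hy, hfar⟩
    · constructor
      · intro i
        rw [hxi]
        exact ⟨le_refl _, by linarith⟩
      · rw [hxi]
        linarith
  -- the region on the negative side
  have hneg : (D.T - t) ^ 2 ≤ -u (t, x) := by
    refine upper hDg hfn hcs hcT (v := fun q => -u q) ⟨hcont.neg, ?_, ?_, ?_⟩ hsmall htI x ?_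
    · intro φ hφ q hq hloc
      rw [F_neg D hDg]
      have h1 : IsLocalMax (fun r => u r - (fun r => -φ r) r) q := by
        have h2 := hloc.neg
        refine h2.congr ?_
        filter_upwards with r
        ring
      have h3 := hu.sub (fun r => -φ r) hφ.neg q (hsub hq) h1
      linarith
    · intro y _
      rw [hterm, hak]
      have : y k - (z k - Real.pi) = (y k - z k) + Real.pi := by ring
      rw [this, Real.sin_add_pi]
    · intro r hr y hy hfar
      exact hc2' r ⟨hct.trans hr.1, hr.2⟩ (hcc2.trans hr.1) y ⟨hy, hfar⟩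
    · constructor
      · intro i
        rw [hxi]
        by_cases hi : i = k
        · rw [hi, hak]
          exact ⟨by linarith, by linarith⟩
        · rw [hai i hi]
          exact ⟨le_refl _, by linarith⟩
      · rw [hxi, hak]
        linarith
  have h1 : 0 < (D.T - t) ^ 2 := by
    have : 0 < D.T - t := by linarith [htI.2]
    positivity
  linarith

end Main

/-! ### The hypotheses -/

theorem data_hyp (n d : ℕ) (hn : 0 < n) (T : ℝ) (hT : 0 < T) (z : Fin n → ℝ) (α p : ℝ) (h1 : 1 < α) (h2 : α ≤ 2)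
    (h3 : 1 ≤ p) (h4 : p < α / (α - 1)) {K : ℝ} (hK : 0 < K)
    (b : ℝ → E n → E n) (σ : ℝ → E n → Matrix (Fin n) (Fin d) ℝ)
    (hb : ContinuousOn (fun q : ℝ × E n => b q.1 q.2) (Icc 0 T ×ˢ univ))
    (hσ : ContinuousOn (fun q : ℝ × E n => σ q.1 q.2) (Icc 0 T ×ˢ univ))
    (hA1 : ∀ t ∈ Icc 0 T, ∀ x x' : E n, ‖b t 0‖ + frob (σ t x) ≤ K ∧
      ‖b t x - b t x'‖ + frob (σ t x - σ t x') ≤ K * ‖x - x'‖) :
    (data n d hn T z b σ).Hyp K 3 α p where
  T_pos := hT
  b_cont := hb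
  σ_cont := hσ
  g_cont := by
    apply Continuous.continuousOn
    exact continuous_G.comp (by fun_prop)
  h_cont := by
    change Continuous fun x : E n => Real.sin (x ⟨0, hn⟩ - z ⟨0, hn⟩)
    fun_prop
  K_pos := hK
  k_nonneg := by norm_num
  one_lt_α := h1
  α_le_two := h2
  one_le_p := h3
  p_lt := h4
  A1 := hA1
  G1 := by
    intro t _ x y r
    change Real.sign y * G y ≤ 3 * (1 + ‖x‖ ^ p + |y| + ‖r‖ ^ α)
    have e1 : Real.sign y * G y ≤ |G y| := by
      rcases Real.sign_apply_eq y with h | h | h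
      · rw [h]
        linarith [neg_abs_le (G y)]
      · rw [h, zero_mul]
        exact abs_nonneg _
      · rw [h, one_mul]
        exact le_abs_self _
    have e2 := abs_G_le y
    have e3 : 0 ≤ ‖x‖ ^ p := by positivity
    have e4 : 0 ≤ |y| := abs_nonneg _
    have e5 : 0 ≤ ‖r‖ ^ α := by positivity
    linarith
  G2 := by
    intro t _ x y r
    change |G y| + |Real.sin (x ⟨0, hn⟩ - z ⟨0, hn⟩)| ≤ 3 * (1 + ‖x‖ ^ p +
      Real.exp (3 * |y| ^ (2 / (α / (α - 1)))) + ‖r‖ ^ 2)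
    have e1 := Real.abs_sin_le_one (x ⟨0, hn⟩ - z ⟨0, hn⟩)
    have e2 := abs_G_le y
    have e3 : 0 ≤ ‖x‖ ^ p := by positivity
    have e4 : 0 ≤ Real.exp (3 * |y| ^ (2 / (α / (α - 1)))) := Real.exp_nonneg _
    have e5 : 0 ≤ ‖r‖ ^ 2 := by positivity
    linarith

/-! ### The example -/

theorem frob_le_of_sq {n d : ℕ} {A : Matrix (Fin n) (Fin d) ℝ} {m : ℝ} (hm : 0 ≤ m)
    (h : ∑ i, ∑ j, A i j ^ 2 ≤ m ^ 2) : frob A ≤ m := by
  unfold frob
  exact Real.sqrt_le_iff.2 ⟨hm, h⟩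

theorem sum_diag {n d : ℕ} (f : Fin n → ℝ) (hf : ∀ i, 0 ≤ f i) (i : Fin n) :
    ∑ j : Fin d, (if (i : ℕ) = (j : ℕ) then f i else 0) ≤ f i := by
  by_cases h : (i : ℕ) < d
  · rw [Finset.sum_eq_single (⟨i, h⟩ : Fin d)]
    · simp
    · intro j _ hj
      rw [if_neg]
      intro h1
      exact hj (Fin.ext h1.symm)
    · intro h1
      exact absurd (Finset.mem_univ _) h1
  · rw [Finset.sum_eq_zero]
    · exact hf i
    · intro j _
      rw [if_neg]
      intro h1
      have := j.isLt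
      omega

theorem sinMatrix_A1 (n d : ℕ) (hn : 0 < n) (x x' : E n) :
    ‖(0 : E n)‖ + frob (sinMatrix n d x) ≤ n ∧
      ‖(0 : E n) - 0‖ + frob (sinMatrix n d x - sinMatrix n d x') ≤ n * ‖x - x'‖ := by
  have hn1 : (1:ℝ) ≤ n := by exact_mod_cast hn
  constructor
  · rw [norm_zero, zero_add]
    apply frob_le_of_sq (by positivity)
    have h1 : ∀ i : Fin n, ∑ j, sinMatrix n d x i j ^ 2 ≤ 1 := by
      intro i
      have h2 : ∑ j, sinMatrix n d x i j ^ 2 =
          ∑ j : Fin d, (if (i : ℕ) = (j : ℕ) then Real.sin (x i) ^ 2 else 0) := by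
        refine Finset.sum_congr rfl fun j _ => ?_
        unfold sinMatrix
        rw [Matrix.of_apply]
        split_ifs <;> simp
      rw [h2]
      refine (sum_diag (fun i => Real.sin (x i) ^ 2) (fun i => sq_nonneg _) i).trans ?_
      have := Real.sin_sq_add_cos_sq (x i)
      nlinarith [sq_nonneg (Real.cos (x i))]
    calc ∑ i, ∑ j, sinMatrix n d x i j ^ 2 ≤ ∑ i : Fin n, (1:ℝ) :=
          Finset.sum_le_sum fun i _ => h1 i
      _ = n := by simp
      _ ≤ (n:ℝ) ^ 2 := by nlinarith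
  · rw [sub_zero, norm_zero, zero_add]
    have h0 : frob (sinMatrix n d x - sinMatrix n d x') ≤ ‖x - x'‖ := by
      apply frob_le_of_sq (norm_nonneg _)
      have h1 : ∀ i : Fin n, ∑ j, (sinMatrix n d x - sinMatrix n d x') i j ^ 2 ≤
          ((x - x') i) ^ 2 := by
        intro i
        have h2 : ∑ j, (sinMatrix n d x - sinMatrix n d x') i j ^ 2 =
            ∑ j : Fin d, (if (i : ℕ) = (j : ℕ) then (Real.sin (x i) - Real.sin (x' i)) ^ 2
              else 0) := by
          refine Finset.sum_congr rfl fun j _ => ?_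
          unfold sinMatrix
          rw [Matrix.sub_apply, Matrix.of_apply, Matrix.of_apply]
          split_ifs <;> simp
        rw [h2]
        refine (sum_diag (fun i => (Real.sin (x i) - Real.sin (x' i)) ^ 2)
          (fun i => sq_nonneg _) i).trans ?_
        have h3 : |Real.sin (x i) - Real.sin (x' i)| ≤ |x i - x' i| := by
          have := Real.lipschitzWith_sin.dist_le_mul (x i) (x' i)
          rw [Real.dist_eq, Real.dist_eq] at this
          simpa using this
        have h4 : (x - x') i = x i - x' i := rfl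
        rw [h4]
        exact sq_le_sq.2 h3
      calc ∑ i, ∑ j, (sinMatrix n d x - sinMatrix n d x') i j ^ 2 ≤ ∑ i, ((x - x') i) ^ 2 :=
            Finset.sum_le_sum fun i _ => h1 i
        _ = ‖x - x'‖ ^ 2 := by
            rw [EuclideanSpace.norm_sq_eq]
            refine Finset.sum_congr rfl fun i _ => ?_
            rw [Real.norm_eq_abs, sq_abs]
    have h1 := norm_nonneg (x - x')
    nlinarith

theorem sinMatrix_continuous (n d : ℕ) : Continuous (sinMatrix n d) := by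
  unfold sinMatrix
  refine continuous_matrix fun i j => ?_
  simp only [Matrix.of_apply]
  split_ifs
  · have hc : Continuous (fun x : E n => x i) := (EuclideanSpace.proj i : E n →L[ℝ] ℝ).continuous
    exact Real.continuous_sin.comp hc
  · exact continuous_const

theorem sinMatrix_rank (n d : ℕ) {x : E n} (hx : ∀ i, Real.sin (x i) ≠ 0) :
    (sinMatrix n d x).rank = min n d := by
  apply le_antisymm
  · exact le_min (by simpa using (sinMatrix n d x).rank_le_height)
      (by simpa using (sinMatrix n d x).rank_le_width)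
  · -- a square submatrix that is diagonal
    have h1 : ((sinMatrix n d x).submatrix (Fin.castLE (min_le_left n d))
        (Fin.castLE (min_le_right n d))).rank ≤ (sinMatrix n d x).rank :=
      Matrix.rank_submatrix_le _ _ _
    have h2 : ((sinMatrix n d x).submatrix (Fin.castLE (min_le_left n d))
        (Fin.castLE (min_le_right n d))) =
        Matrix.diagonal (fun i : Fin (min n d) => Real.sin (x (Fin.castLE (min_le_left n d) i))) := by
      ext i j
      unfold sinMatrix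
      rw [Matrix.submatrix_apply, Matrix.of_apply, Matrix.diagonal_apply]
      by_cases hij : i = j
      · subst hij
        simp
      · rw [if_neg hij, if_neg]
        intro h3
        exact hij (Fin.ext h3)
    have h3 : (Matrix.diagonal (fun i : Fin (min n d) =>
        Real.sin (x (Fin.castLE (min_le_left n d) i)))).rank = min n d := by
      rw [Matrix.rank_diagonal]
      simp [hx]
    rw [h2, h3] at h1
    exact h1

end Pool.Agent.NSN83
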